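import Pool.Agent.R336.VQ.Fin
import Pool.Agent.R336.VQ.Int
import Pool.Agent.R336.VQ.Prd
import Pool.Agent.R336.VQ.Sym
import Pool.Agent.R336.VQ.Cov
import Pool.Agent.R336.VQ.CRE
import Pool.Agent.R336.VQ.Dong
import Pool.Agent.R336.VQ.Recon

/-!
# The rank one Heisenberg vertex operator algebra over `ℚ`

Adapted from the files of project VO (W174, W608, W696).
-/

set_option autoImplicit false

namespace Pool.Agent.R336.VQ.Heis

open MvPolynomial Pool.Agent.R336.VQ

abbrev PP := MvPolynomial ℕ ℚ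

/-- The Heisenberg operators: `hO (-(l+1))` is multiplication by `X l`, `hO 0 = 0`,
`hO (l+1)` is `(l+1) d/dX_l`. -/
noncomputable def hO : ℤ → Module.End ℚ PP
  | Int.negSucc l => LinearMap.mulLeft ℚ (X l)
  | Int.ofNat 0 => 0
  | Int.ofNat (l + 1) => ((l : ℚ) + 1) • (pderiv l).toLinearMap

theorem hO_neg (l : ℕ) (p : PP) : hO (-(l : ℤ) - 1) p = X l * p := by
  have h : (-(l : ℤ) - 1) = Int.negSucc l := by omega
  rw [h]; rfl

theorem hO_zero (p : PP) : hO 0 p = 0 := rfl

theorem hO_pos (l : ℕ) (p : PP) : hO ((l : ℤ) + 1) p = ((l : ℚ) + 1) • pderiv l p := by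
  have h : ((l : ℤ) + 1) = Int.ofNat (l + 1) := by simp
  rw [h]; rfl

/-- The derivation `X_i ↦ (i+1) X_(i+1)`. -/
noncomputable def DD : Derivation ℚ PP PP :=
  MvPolynomial.mkDerivation ℚ (fun i : ℕ => C ((i : ℚ) + 1) * X (i + 1))

/-- The derivation `X_i ↦ (i+1) X_i`. -/
noncomputable def NN : Derivation ℚ PP PP :=
  MvPolynomial.mkDerivation ℚ (fun i : ℕ => C ((i : ℚ) + 1) * X i)

lemma tri (n : ℤ) : (∃ l : ℕ, n = -(l : ℤ) - 1) ∨ n = 0 ∨ ∃ l : ℕ, n = (l : ℤ) + 1 := by
  rcases lt_trichotomy n 0 with h | h | h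
  · exact Or.inl ⟨(-n - 1).toNat, by omega⟩
  · exact Or.inr (Or.inl h)
  · exact Or.inr (Or.inr ⟨(n - 1).toNat, by omega⟩)

lemma der_single (D : Derivation ℚ PP PP) (a b : ℕ) :
    D ((Pi.single a (1 : PP) : ℕ → PP) b) = 0 := by
  by_cases hbc : b = a
  · subst hbc
    rw [Pi.single_eq_same]
    exact Derivation.map_one_eq_zero _
  · rw [Pi.single_eq_of_ne hbc, map_zero]

lemma pd_comm (i j : ℕ) (p : PP) : pderiv i (pderiv j p) = pderiv j (pderiv i p) := by
  have h : ⁅(pderiv i : Derivation ℚ PP PP), (pderiv j : Derivation ℚ PP PP)⁆ = 0 := by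
    apply MvPolynomial.derivation_ext
    intro k
    rw [Derivation.commutator_apply, pderiv_X, pderiv_X]
    simp only [Derivation.coe_zero, Pi.zero_apply]
    rw [der_single, der_single, sub_zero]
  have h2 := congrArg (fun D : Derivation ℚ PP PP => D p) h
  simp only [Derivation.commutator_apply, Derivation.coe_zero, Pi.zero_apply] at h2
  exact sub_eq_zero.1 h2

lemma pd_mul (l l' : ℕ) (p : PP) :
    pderiv l (X l' * p) = X l' * pderiv l p + (if l' = l then p else 0) := by
  rw [Derivation.leibniz, pderiv_X, smul_eq_mul, smul_eq_mul]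
  congr 1
  by_cases h : l' = l
  · subst h
    rw [Pi.single_eq_same, if_pos rfl, mul_one]
  · rw [Pi.single_eq_of_ne h, if_neg h, mul_zero]

/-- commutator of a creation and an annihilation operator -/
lemma np (l l' : ℕ) (p : PP) :
    hO (-(l : ℤ) - 1) (hO ((l' : ℤ) + 1) p) - hO ((l' : ℤ) + 1) (hO (-(l : ℤ) - 1) p) =
    (if l = l' then -((l : ℚ) + 1) else 0) • p := by
  rw [hO_pos, hO_neg, hO_neg, hO_pos, pd_mul]
  by_cases h : l = l'
  · subst h
    rw [if_pos rfl, if_pos rfl, smul_add, mul_smul_comm]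
    module
  · rw [if_neg h, if_neg h, add_zero, mul_smul_comm, sub_self, zero_smul]

theorem hh (m n : ℤ) (p : PP) :
    hO m (hO n p) - hO n (hO m p) = (if m + n = 0 then (m : ℚ) else 0) • p := by
  rcases tri m with ⟨l, rfl⟩ | rfl | ⟨l, rfl⟩ <;> rcases tri n with ⟨l', rfl⟩ | rfl | ⟨l', rfl⟩
  · rw [hO_neg, hO_neg, hO_neg, hO_neg, if_neg (by omega), zero_smul,
      mul_left_comm, sub_self]
  · rw [hO_zero, hO_zero, map_zero, if_neg (by omega), zero_smul, sub_self]
  · rw [np]
    congr 1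
    by_cases h : l = l'
    · subst h
      rw [if_pos rfl, if_pos (by ring)]
      push_cast
      ring
    · rw [if_neg h, if_neg (by omega)]
  · rw [hO_zero, hO_zero, map_zero, if_neg (by omega), zero_smul, sub_self]
  · rw [sub_self, Int.cast_zero, ite_self, zero_smul]
  · rw [hO_zero, hO_zero, map_zero, if_neg (by omega), zero_smul, sub_self]
  · rw [← neg_sub, np, ← neg_smul]
    congr 1
    by_cases h : l' = l
    · subst h
      rw [if_pos rfl, if_pos (by ring)]
      push_cast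
      ring
    · rw [if_neg h, if_neg (by omega), neg_zero]
  · rw [hO_zero, hO_zero, map_zero, if_neg (by omega), zero_smul, sub_self]
  · rw [hO_pos, hO_pos, hO_pos, hO_pos, if_neg (by omega), zero_smul, Derivation.map_smul,
      Derivation.map_smul, pd_comm l' l, smul_comm, sub_self]

lemma DD_X (i : ℕ) : DD (X i : PP) = C ((i : ℚ) + 1) * X (i + 1) := by
  unfold DD
  rw [MvPolynomial.mkDerivation_X]

lemma NN_X (i : ℕ) : NN (X i : PP) = C ((i : ℚ) + 1) * X i := by
  unfold NN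
  rw [MvPolynomial.mkDerivation_X]

/-- `[D, d/dX_j]` for a derivation with linear values -/
lemma der_pd (D : Derivation ℚ PP PP) (j : ℕ) (E : Derivation ℚ PP PP)
    (h : ∀ i, - pderiv j (D (X i)) = E (X i)) (p : PP) :
    D (pderiv j p) - pderiv j (D p) = E p := by
  have h1 : ⁅D, (pderiv j : Derivation ℚ PP PP)⁆ = E := by
    apply MvPolynomial.derivation_ext
    intro i
    rw [Derivation.commutator_apply, pderiv_X, der_single, zero_sub, h]
  have h2 := congrArg (fun D : Derivation ℚ PP PP => D p) h1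
  simpa only [Derivation.commutator_apply] using h2

lemma pd_CX (j i : ℕ) (c : ℚ) : pderiv j (C c * X i : PP) = if i = j then C c else 0 := by
  rw [Derivation.leibniz, pderiv_X, MvPolynomial.pderiv_C, smul_zero, add_zero, smul_eq_mul]
  by_cases h : i = j
  · subst h
    rw [Pi.single_eq_same, if_pos rfl, mul_one]
  · rw [Pi.single_eq_of_ne h, if_neg h, mul_zero]

/-- `[DD, d/dX_(j+1)] = -(j+1) d/dX_j` -/
lemma DD_pd (j : ℕ) (p : PP) :
    DD (pderiv (j + 1) p) - pderiv (j + 1) (DD p) = (-((j : ℚ) + 1)) • pderiv j p := by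
  refine der_pd DD (j + 1) ((-((j : ℚ) + 1)) • (pderiv j : Derivation ℚ PP PP)) (fun i => ?_) p
  rw [DD_X, pd_CX, Derivation.smul_apply, pderiv_X]
  by_cases h : i = j
  · subst h
    rw [if_pos rfl, Pi.single_eq_same, MvPolynomial.smul_eq_C_mul, mul_one, map_neg]
  · rw [if_neg (by omega), Pi.single_eq_of_ne h, smul_zero, neg_zero]

lemma DD_pd0 (p : PP) : DD (pderiv 0 p) - pderiv 0 (DD p) = 0 := by
  refine der_pd DD 0 0 (fun i => ?_) p
  rw [DD_X, pd_CX, if_neg (by omega), neg_zero]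
  rfl

lemma NN_pd (j : ℕ) (p : PP) :
    NN (pderiv j p) - pderiv j (NN p) = (-((j : ℚ) + 1)) • pderiv j p := by
  refine der_pd NN j ((-((j : ℚ) + 1)) • (pderiv j : Derivation ℚ PP PP)) (fun i => ?_) p
  rw [NN_X, pd_CX, Derivation.smul_apply, pderiv_X]
  by_cases h : i = j
  · subst h
    rw [if_pos rfl, Pi.single_eq_same, MvPolynomial.smul_eq_C_mul, mul_one, map_neg]
  · rw [if_neg h, Pi.single_eq_of_ne h, smul_zero, neg_zero]

/-- translation covariance -/
theorem th (n : ℤ) (p : PP) : DD (hO n p) - hO n (DD p) = (-(n : ℚ)) • hO (n - 1) p := by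
  rcases tri n with ⟨l, rfl⟩ | rfl | ⟨l, rfl⟩
  · have e : (-(l : ℤ) - 1 - 1) = -((l + 1 : ℕ) : ℤ) - 1 := by push_cast; ring
    rw [e, hO_neg, hO_neg, hO_neg, Derivation.leibniz, DD_X, smul_eq_mul, smul_eq_mul,
      MvPolynomial.smul_eq_C_mul]
    push_cast
    rw [show -(-(l : ℚ) - 1) = (l : ℚ) + 1 by ring]
    ring
  · rw [hO_zero, hO_zero, map_zero, sub_zero, Int.cast_zero, neg_zero, zero_smul]
  · cases l with
    | zero =>
      rw [hO_pos, hO_pos, Derivation.map_smul, ← smul_sub, DD_pd0, smul_zero]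
      have e : (((0 : ℕ) : ℤ) + 1 - 1) = 0 := by norm_num
      rw [e, hO_zero, smul_zero]
    | succ l =>
      have e : (((l + 1 : ℕ) : ℤ) + 1 - 1) = (l : ℤ) + 1 := by push_cast; ring
      rw [e, hO_pos, hO_pos, hO_pos, Derivation.map_smul, ← smul_sub, DD_pd, smul_smul, smul_smul]
      congr 1
      push_cast
      ring

/-- the weight operator and the Heisenberg operators -/
theorem nh (n : ℤ) (p : PP) : NN (hO n p) - hO n (NN p) = (-(n : ℚ)) • hO n p := by
  rcases tri n with ⟨l, rfl⟩ | rfl | ⟨l, rfl⟩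
  · rw [hO_neg, hO_neg, Derivation.leibniz, NN_X, smul_eq_mul, smul_eq_mul,
      MvPolynomial.smul_eq_C_mul]
    push_cast
    rw [show -(-(l : ℚ) - 1) = (l : ℚ) + 1 by ring]
    ring
  · rw [hO_zero, hO_zero, map_zero, sub_zero, smul_zero]
  · rw [hO_pos, hO_pos, Derivation.map_smul, ← smul_sub, NN_pd, smul_smul, smul_smul]
    congr 1
    push_cast
    ring

theorem hO_fl : hO ∈ FL PP := by
  intro v
  refine ⟨((v.vars.sup id + 2 : ℕ) : ℤ), fun n hn => ?_⟩
  rcases tri n with ⟨l, rfl⟩ | rfl | ⟨l, rfl⟩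
  · exfalso; push_cast at hn; omega
  · rfl
  · rw [hO_pos]
    have : l ∉ v.vars := by
      intro h
      have := Finset.le_sup (f := id) h
      simp only [id] at this
      push_cast at hn
      omega
    rw [MvPolynomial.pderiv_eq_zero_of_notMem_vars this, smul_zero]

theorem bc_zero_zero : bc 0 0 = 1 := by
  unfold bc
  simp

theorem bc_two (i : ℕ) : bc 2 i = (Nat.choose 2 i : ℚ) := by
  unfold bc
  have h1 : Ring.choose ((2 : ℕ) : ℤ) i = ((Nat.choose 2 i : ℕ) : ℤ) :=
    Ring.choose_natCast 2 i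
  have h2 : ((2 : ℕ) : ℤ) = 2 := rfl
  rw [h2] at h1
  rw [h1]
  simp

theorem RR_two (a b : ℤ → Module.End ℚ PP) (p q : ℤ) (v : PP) :
    RR a b 2 p q v = (a (p + 2) (b q v) - b q (a (p + 2) v)) -
      (2 : ℚ) • (a (p + 1) (b (q + 1) v) - b (q + 1) (a (p + 1) v)) +
      (a p (b (q + 2) v) - b (q + 2) (a p v)) := by
  unfold RR
  rw [finsum_eq_sum_of_support_subset (s := Finset.range 3)]
  · rw [Finset.sum_range_succ, Finset.sum_range_succ, Finset.sum_range_one]
    unfold trm
    rw [bc_two, bc_two, bc_two]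
    have e1 : p + 2 - ((0 : ℕ) : ℤ) = p + 2 := by simp
    have e2 : q + ((0 : ℕ) : ℤ) = q := by simp
    have e3 : q + 2 - ((0 : ℕ) : ℤ) = q + 2 := by simp
    have e4 : p + ((0 : ℕ) : ℤ) = p := by simp
    have e5 : p + 2 - ((1 : ℕ) : ℤ) = p + 1 := by push_cast; ring
    have e6 : q + ((1 : ℕ) : ℤ) = q + 1 := by simp
    have e7 : q + 2 - ((1 : ℕ) : ℤ) = q + 1 := by push_cast; ring
    have e8 : p + ((1 : ℕ) : ℤ) = p + 1 := by simp
    have e9 : p + 2 - ((2 : ℕ) : ℤ) = p := by push_cast; ring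
    have e10 : q + ((2 : ℕ) : ℤ) = q + 2 := by simp
    have e11 : q + 2 - ((2 : ℕ) : ℤ) = q := by push_cast; ring
    have e12 : p + ((2 : ℕ) : ℤ) = p + 2 := by simp
    rw [e1, e2, e3, e4, e5, e6, e7, e8, e9, e10, e11, e12]
    have c0 : Nat.choose 2 0 = 1 := rfl
    have c1 : Nat.choose 2 1 = 2 := rfl
    have c2 : Nat.choose 2 2 = 1 := rfl
    rw [c0, c1, c2]
    have s : ((-1 : ℚ) ^ (2 : ℤ)) = 1 := by norm_num
    rw [s]
    norm_num
    module
  · intro i hi
    rw [Function.mem_support] at hi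
    by_contra hc
    apply hi
    unfold trm
    have h3 : 2 < i := by
      simp only [Finset.coe_range, Set.mem_Iio, not_lt] at hc
      omega
    rw [bc_two, Nat.choose_eq_zero_of_lt h3]
    simp

theorem hO_loc : Loc hO hO := by
  refine ⟨2, fun p q v => ?_⟩
  have h2 : ((2 : ℕ) : ℤ) = 2 := rfl
  rw [h2, RR_two, hh, hh, hh]
  have e1 : p + 2 + q = p + q + 2 := by ring
  have e2 : p + 1 + (q + 1) = p + q + 2 := by ring
  have e3 : p + (q + 2) = p + q + 2 := by ring
  rw [e1, e2, e3]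
  by_cases h : p + q + 2 = 0
  · rw [if_pos h, if_pos h, if_pos h]
    push_cast
    module
  · rw [if_neg h, if_neg h, if_neg h]
    module

theorem hO_cre : Cre (1 : PP) hO := by
  intro n hn
  rcases tri n with ⟨l, rfl⟩ | rfl | ⟨l, rfl⟩
  · exfalso; omega
  · rfl
  · rw [hO_pos, Derivation.map_one_eq_zero, smul_zero]

/-- generation -/
theorem gen (S : Submodule ℚ PP) (h1 : (1 : PP) ∈ S)
    (hS : ∀ (l : ℕ) (v : PP), v ∈ S → X l * v ∈ S) : S = ⊤ := by
  rw [eq_top_iff]
  intro p _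
  induction p using MvPolynomial.induction_on with
  | C a =>
    rw [← mul_one (C a), ← MvPolynomial.smul_eq_C_mul]
    exact S.smul_mem _ h1
  | add p q hp hq => exact S.add_mem (hp trivial) (hq trivial)
  | mul_X p i hp =>
    rw [mul_comm]
    exact hS i p (hp trivial)

/-- The vertex algebras we use. -/
structure Good (A : VertexAlgebra PP) : Prop where
  one : A.one = 1
  Yh : A.Y (X 0) = hO
  T : ∀ (x : PP) (n : ℤ), A.Y (DD x) n = (-(n : ℚ)) • A.Y x (n - 1)

theorem exists_good : ∃ A : VertexAlgebra PP, Good A := by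
  have hFIN : S_FIN := N688.fin
  have hPAS : S_PAS := N688.pas
  have hDong : S_DONG := N369.dong hFIN hPAS N395.sym
  have hINT : S_INT := N933.int hPAS
  have hPRD : S_PRD := N688.prd hFIN
  have hLAD : S_LAD := N688.lad hFIN
  have hREC : S_REC := N155.Recon.recon hFIN hPAS hINT hPRD N395.sym hLAD hDong
    (N85.cov hFIN) N179.cre N179.god
  obtain ⟨A, h1, h2, h3⟩ := hREC PP DD.toLinearMap 1 {hO} (Derivation.map_one_eq_zero _)
    (by
      intro a ha
      rw [Set.mem_singleton_iff] at ha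
      subst ha
      exact ⟨hO_fl, fun n v => th n v, hO_cre⟩)
    (by
      intro a ha b hb
      rw [Set.mem_singleton_iff] at ha hb
      subst ha hb
      exact hO_loc)
    (by
      intro S hS h
      apply gen S hS
      intro l v hv
      rw [← hO_neg]
      exact h hO rfl _ _ hv)
  refine ⟨A, h1, ?_, h3⟩
  have := h2 hO rfl
  have e : hO (-1) 1 = X 0 := by
    have := hO_neg 0 1
    rw [mul_one] at this
    exact this
  rwa [e] at this

end Pool.Agent.R336.VQ.Heis
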