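import Pool.Agent.R336.VQ.Heis1

/-!
# The conformal vector of the Heisenberg vertex operator algebra
-/

set_option autoImplicit false

namespace Pool.Agent.R336.VQ.Heis

open MvPolynomial Pool.Agent.R336.VQ

lemma bc_zero_ite (i : ℕ) : bc 0 i = if i = 0 then 1 else 0 := by
  unfold bc
  rw [Ring.choose_zero_ite]
  split_ifs <;> simp

lemma bc_neg_one (i : ℕ) : bc (-1) i = (-1) ^ i := by
  unfold bc
  rw [Ring.choose_neg]
  have h : (1 : ℤ) + i - 1 = ((i : ℕ) : ℤ) := by ring
  rw [h, Ring.choose_natCast, Nat.choose_self]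
  rcases Nat.even_or_odd i with h | h
  · rw [Int.negOnePow_even (i : ℤ) (by exact_mod_cast h), h.neg_one_pow]
    simp
  · rw [Int.negOnePow_odd (i : ℤ) (by exact_mod_cast h), h.neg_one_pow]
    simp

theorem bc_zero_right (r : ℤ) : bc r 0 = 1 := by
  simp [bc]

theorem bc_one_right (r : ℤ) : bc r 1 = r := by
  simp [bc]

theorem bc_three (r : ℤ) : bc r 3 = (r : ℚ) * (r - 1) * (r - 2) / 6 := by
  unfold bc
  have h := Ring.descPochhammer_eq_factorial_smul_choose r 3
  have h2 : (descPochhammer ℤ 3).smeval r = r * (r - 1) * (r - 2) := by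
    rw [← Polynomial.eval_eq_smeval, descPochhammer_succ_eval, descPochhammer_succ_eval,
      descPochhammer_succ_eval, descPochhammer_zero]
    simp
  rw [h2] at h
  have h3 : r * (r - 1) * (r - 2) = 6 * Ring.choose r 3 := by
    rw [h]
    simp [Nat.factorial]
  have h4 : (r : ℚ) * (r - 1) * (r - 2) = 6 * ((Ring.choose r 3 : ℤ) : ℚ) := by
    exact_mod_cast h3
  rw [h4]
  ring

section gen

variable {V : Type} [AddCommGroup V] [Module ℚ V] (A : VertexAlgebra V)

/-- the commutator formula -/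
theorem comm (a b w : V) (l m : ℤ) :
    A.Y a l (A.Y b m w) - A.Y b m (A.Y a l w) =
      ∑ᶠ i : ℕ, bc l i • A.Y (A.Y a i b) (l + m - i) w := by
  have h := A.borcherds a b w l m 0
  rw [finsum_eq_single (f := fun i : ℕ => ((-1 : ℚ) ^ i * bc 0 i) •
      (A.Y a (l + 0 - i) (A.Y b (m + i) w) -
        (-1 : ℚ) ^ (0 : ℤ) • A.Y b (m + 0 - i) (A.Y a (l + i) w))) 0
    (fun i hi => by rw [bc_zero_ite, if_neg hi, mul_zero, zero_smul])] at h
  simp only [bc_zero_ite, zpow_zero, one_smul, pow_zero, mul_one, Nat.cast_zero, add_zero,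
    sub_zero, zero_add, if_true] at h
  exact h.symm

/-- the associativity formula for the `-1`-product -/
theorem assoc1 (a b w : V) (m : ℤ) :
    A.Y (A.Y a (-1) b) m w =
      ∑ᶠ i : ℕ, (A.Y a (-1 - i) (A.Y b (m + i) w) + A.Y b (m - 1 - i) (A.Y a i w)) := by
  have h := A.borcherds a b w 0 m (-1)
  rw [finsum_eq_single (f := fun i : ℕ => bc 0 i • A.Y (A.Y a (-1 + i) b) (0 + m - i) w) 0
    (fun i hi => by rw [bc_zero_ite, if_neg hi, zero_smul])] at h
  simp only [bc_zero_ite, one_smul, Nat.cast_zero, add_zero,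
    sub_zero, zero_add, if_true] at h
  rw [h]
  apply finsum_congr
  intro i
  rw [bc_neg_one, ← mul_pow]
  norm_num
  rfl

/-- the same formula as a finite sum -/
theorem assoc1_fin (a b w : V) (m : ℤ) : ∃ S0 : ℕ, ∀ S, S0 ≤ S →
    A.Y (A.Y a (-1) b) m w =
      ∑ i ∈ Finset.range S, (A.Y a (-1 - i) (A.Y b (m + i) w) + A.Y b (m - 1 - i) (A.Y a i w)) := by
  obtain ⟨N1, h1⟩ := A.trunc b w
  obtain ⟨N2, h2⟩ := A.trunc a w
  refine ⟨(N1 - m).toNat + N2.toNat, fun S hS => ?_⟩
  rw [assoc1]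
  apply finsum_eq_sum_of_support_subset
  intro i hi
  rw [Finset.coe_range, Set.mem_Iio]
  by_contra hcon
  push Not at hcon
  apply hi
  show A.Y a (-1 - i) (A.Y b (m + i) w) + A.Y b (m - 1 - i) (A.Y a i w) = 0
  rw [h1 (m + i) (by omega), h2 (i : ℤ) (by omega), map_zero, map_zero, add_zero]

end gen

/-- the conformal vector -/
noncomputable def om : PP := C (1 / 2) * X 0 ^ 2

section

variable {A : VertexAlgebra PP} (hA : Good A)
include hA

theorem Yc (l : ℤ) (x : PP) : A.Y (X 0) l x = hO l x := by rw [hA.Yh]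

theorem h_one (n : ℤ) (hn : 0 ≤ n) : hO n 1 = 0 := hO_cre n hn

theorem hm1 (p : PP) : hO (-1) p = X 0 * p := hO_neg 0 p

theorem pd0om : pderiv 0 om = X 0 := by
  unfold om
  rw [Derivation.leibniz, MvPolynomial.pderiv_C, smul_zero, add_zero, pow_two, Derivation.leibniz,
    pderiv_X_self, smul_eq_mul, smul_eq_mul, mul_one, ← two_mul, ← mul_assoc]
  have : (C (1 / 2) * 2 : PP) = 1 := by
    have : (2 : PP) = C 2 := rfl
    rw [this, ← C_mul]
    norm_num
  rw [this, one_mul]

theorem pdlom (l : ℕ) (hl : l ≠ 0) : pderiv l om = 0 := by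
  unfold om
  rw [Derivation.leibniz, MvPolynomial.pderiv_C, smul_zero, add_zero, pow_two, Derivation.leibniz,
    pderiv_X_of_ne (Ne.symm hl), smul_zero, add_zero, smul_zero]

/-- `[h_l, ω_m] = l h_(l+m-1)` -/
theorem W1 (l m : ℤ) (w : PP) :
    hO l (A.Y om m w) - A.Y om m (hO l w) = (l : ℚ) • hO (l + m - 1) w := by
  have h := comm A (X 0) om w l m
  rw [hA.Yh] at h
  rw [h, finsum_eq_single _ 1]
  · have : hO ((1 : ℕ) : ℤ) om = X 0 := by
      have := hO_pos 0 om
      simp only [Nat.cast_zero, zero_add, one_smul] at this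
      rw [Nat.cast_one, this, pd0om hA]
    rw [this, hA.Yh, bc_one_right]
    rfl
  · intro i hi
    rcases i with _ | i
    · have : hO ((0 : ℕ) : ℤ) om = 0 := rfl
      rw [this, map_zero, Pi.zero_apply, LinearMap.zero_apply, smul_zero]
    · have : hO ((i + 1 : ℕ) : ℤ) om = 0 := by
        have h2 := hO_pos i om
        rw [pdlom hA i (by omega), smul_zero] at h2
        exact_mod_cast h2
      rw [this, map_zero, Pi.zero_apply, LinearMap.zero_apply, smul_zero]

theorem om_one (m : ℤ) (hm : 0 ≤ m) : A.Y om m 1 = 0 := by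
  have := A.one_right' om m hm
  rwa [hA.one] at this

/-- uniqueness principle -/
theorem uniq (E F : Module.End ℚ PP) (h1 : E 1 = F 1)
    (h : ∀ (l : ℕ) (w : PP), E w = F w → E (X l * w) = F (X l * w)) : E = F := by
  have : LinearMap.eqLocus E F = ⊤ := gen _ h1 h
  apply LinearMap.ext
  intro p
  have hp : p ∈ LinearMap.eqLocus E F := by rw [this]; trivial
  exact hp

theorem om_zero : A.Y om 0 = DD.toLinearMap := by
  apply uniq hA
  · rw [om_one hA 0 le_rfl]
    exact (Derivation.map_one_eq_zero _).symm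
  · intro l w hw
    have h1 := W1 hA (-(l : ℤ) - 1) 0 w
    have h2 := th (-(l : ℤ) - 1) w
    rw [← hO_neg]
    have h3 : DD.toLinearMap w = DD w := rfl
    rw [h3] at hw
    show _ = DD (hO (-(l : ℤ) - 1) w)
    rw [hw] at h1
    have h4 : A.Y om 0 (hO (-(l : ℤ) - 1) w) = hO (-(l : ℤ) - 1) (DD w) -
        (((-(l : ℤ) - 1 : ℤ) : ℚ)) • hO (-(l : ℤ) - 1 + 0 - 1) w := by rw [← h1]; abel
    have h5 : DD (hO (-(l : ℤ) - 1) w) = hO (-(l : ℤ) - 1) (DD w) +
        (-(((-(l : ℤ) - 1 : ℤ) : ℚ))) • hO (-(l : ℤ) - 1 - 1) w := by rw [← h2]; abel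
    rw [h4, h5, add_zero, neg_smul, sub_eq_add_neg]

theorem om_1 : A.Y om 1 = NN.toLinearMap := by
  apply uniq hA
  · rw [om_one hA 1 (by norm_num)]
    exact (Derivation.map_one_eq_zero _).symm
  · intro l w hw
    have h1 := W1 hA (-(l : ℤ) - 1) 1 w
    have h2 := nh (-(l : ℤ) - 1) w
    rw [← hO_neg]
    have h3 : NN.toLinearMap w = NN w := rfl
    rw [h3] at hw
    show _ = NN (hO (-(l : ℤ) - 1) w)
    rw [hw, add_sub_cancel_right] at h1
    have h4 : A.Y om 1 (hO (-(l : ℤ) - 1) w) = hO (-(l : ℤ) - 1) (NN w) -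
        (((-(l : ℤ) - 1 : ℤ) : ℚ)) • hO (-(l : ℤ) - 1) w := by rw [← h1]; abel
    have h5 : NN (hO (-(l : ℤ) - 1) w) = hO (-(l : ℤ) - 1) (NN w) +
        (-(((-(l : ℤ) - 1 : ℤ) : ℚ))) • hO (-(l : ℤ) - 1) w := by rw [← h2]; abel
    rw [h4, h5, neg_smul, sub_eq_add_neg]

/-- `ω_m (h_(-1) w) = h_(-1) ω_m w + h_(m-2) w` -/
theorem omX0 (m : ℤ) (w : PP) : A.Y om m (X 0 * w) = X 0 * A.Y om m w + hO (m - 2) w := by
  have h1 := W1 hA (-1) m w
  rw [hm1 hA, hm1 hA] at h1
  have e : (-1 : ℤ) + m - 1 = m - 2 := by ring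
  rw [e] at h1
  have : A.Y om m (X 0 * w) = X 0 * A.Y om m w - ((-1 : ℤ) : ℚ) • hO (m - 2) w := by
    rw [← h1]; abel
  rw [this]
  push_cast
  rw [neg_smul, one_smul, sub_neg_eq_add]

theorem om_om (m : ℤ) (hm : 1 ≤ m) :
    A.Y om m om = if m = 1 then (2 : ℚ) • om else if m = 3 then (1 / 2 : ℚ) • 1 else 0 := by
  have e0 : om = (1 / 2 : ℚ) • (X 0 * (X 0 * 1) : PP) := by
    unfold om
    rw [MvPolynomial.smul_eq_C_mul, mul_one, pow_two]
  have h1 : A.Y om m (X 0 * (X 0 * 1)) = X 0 * hO (m - 2) 1 + hO (m - 2) (X 0 * 1) := by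
    rw [omX0 hA, omX0 hA, om_one hA m (by omega), mul_zero, zero_add]
  have h2 : A.Y om m om = (1 / 2 : ℚ) • A.Y om m (X 0 * (X 0 * 1)) := by
    conv_lhs => rw [show A.Y om m om = A.Y om m ((1 / 2 : ℚ) • (X 0 * (X 0 * 1) : PP)) by
      rw [← e0]]
    rw [map_smul]
  rw [h2, h1]
  rcases lt_trichotomy m 1 with h | h | h
  · omega
  · subst h
    rw [if_pos rfl]
    have e1 : (1 : ℤ) - 2 = -1 := by norm_num
    rw [e1, hm1 hA, hm1 hA]
    unfold om
    simp only [MvPolynomial.smul_eq_C_mul]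
    have : (2 : ℚ) = 1 + 1 := by norm_num
    rw [mul_one, ← two_mul, ← mul_assoc]
    have c2 : (2 : PP) = C 2 := rfl
    rw [c2]
    ring
  · rw [if_neg (by omega)]
    have h3 : hO (m - 2) 1 = 0 := h_one hA _ (by omega)
    rw [h3, mul_zero, zero_add, mul_one]
    rcases tri (m - 2) with ⟨l, hl⟩ | h0 | ⟨l, hl⟩
    · omega
    · rw [h0, if_neg (by omega), hO_zero, smul_zero]
    · rw [hl, hO_pos]
      by_cases hl0 : l = 0
      · subst hl0
        rw [if_pos (by omega), pderiv_X_self]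
        simp
      · rw [if_neg (by omega), pderiv_X_of_ne (Ne.symm hl0), smul_zero, smul_zero]

theorem vir (m n : ℤ) (v : PP) :
    A.Y om (m + 1) (A.Y om (n + 1) v) - A.Y om (n + 1) (A.Y om (m + 1) v) =
      ((m : ℚ) - n) • A.Y om (m + n + 1) v +
      (if m + n = 0 then ((m : ℚ) ^ 3 - m) / 12 * 1 else 0) • v := by
  rw [comm A om om v (m + 1) (n + 1)]
  have hL : ∑ᶠ i : ℕ, bc (m + 1) i • A.Y (A.Y om i om) (m + 1 + (n + 1) - i) v =
      ∑ i ∈ Finset.range 4, bc (m + 1) i • A.Y (A.Y om i om) (m + 1 + (n + 1) - i) v := by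
    apply finsum_eq_sum_of_support_subset
    intro i hi
    rw [Finset.coe_range, Set.mem_Iio]
    by_contra hcon
    push Not at hcon
    apply hi
    have : A.Y om (i : ℤ) om = 0 := by
      rw [om_om hA i (by omega), if_neg (by omega), if_neg (by omega)]
    show bc (m + 1) i • A.Y (A.Y om (i : ℤ) om) (m + 1 + (n + 1) - i) v = 0
    rw [this, map_zero, Pi.zero_apply, LinearMap.zero_apply, smul_zero]
  rw [hL]
  have e0 : A.Y om ((0 : ℕ) : ℤ) om = DD om := by
    rw [Nat.cast_zero, om_zero hA]; rfl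
  have e1 : A.Y om ((1 : ℕ) : ℤ) om = (2 : ℚ) • om := by
    rw [Nat.cast_one, om_om hA 1 le_rfl, if_pos rfl]
  have e2 : A.Y om ((2 : ℕ) : ℤ) om = 0 := by
    rw [om_om hA _ (by norm_num), if_neg (by norm_num), if_neg (by norm_num)]
  have e3 : A.Y om ((3 : ℕ) : ℤ) om = (1 / 2 : ℚ) • A.one := by
    rw [om_om hA _ (by norm_num), if_neg (by norm_num), if_pos (by norm_num), hA.one]
  rw [Finset.sum_range_succ, Finset.sum_range_succ, Finset.sum_range_succ,
    Finset.sum_range_succ, Finset.sum_range_zero, e0, e1, e2, e3, hA.T, bc_zero_right,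
    bc_one_right, bc_three]
  have s0 : m + 1 + (n + 1) - ((0 : ℕ) : ℤ) - 1 = m + n + 1 := by push_cast; ring
  have s1 : m + 1 + (n + 1) - ((1 : ℕ) : ℤ) = m + n + 1 := by push_cast; ring
  have s3 : m + 1 + (n + 1) - ((3 : ℕ) : ℤ) = m + n - 1 := by push_cast; ring
  rw [s0, s1, s3]
  simp only [map_smul, map_zero, Pi.smul_apply, Pi.zero_apply, LinearMap.smul_apply,
    LinearMap.zero_apply, smul_zero, add_zero, zero_add, one_smul, A.one_left]
  have hiff : (m + n - 1 = -1) ↔ (m + n = 0) := by omega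
  simp only [hiff]
  split_ifs with h
  · simp only [smul_smul]
    push_cast
    rw [← add_smul]
    congr 1
    · congr 1
      ring
    · congr 1
      ring
  · simp only [smul_zero, zero_smul, add_zero, smul_smul]
    rw [← add_smul]
    congr 1
    push_cast
    ring

/-- modes of the generators -/
theorem YX (l : ℕ) : ∀ (k : ℤ) (x : PP),
    A.Y (X l) k x = ((-1 : ℚ) ^ l * bc k l) • hO (k - l) x := by
  induction l with
  | zero =>
    intro k x
    rw [Yc hA, bc_zero_right, pow_zero, one_mul, one_smul, Nat.cast_zero, sub_zero]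
  | succ l ih =>
    intro k x
    have h1 := hA.T (X l) k
    rw [DD_X, ← MvPolynomial.smul_eq_C_mul, map_smul] at h1
    have h2 := congrArg (fun f : Module.End ℚ PP => f x) h1
    simp only [Pi.smul_apply, LinearMap.smul_apply] at h2
    rw [ih] at h2
    have h3 : ((l : ℚ) + 1) ≠ 0 := by positivity
    have h4 : A.Y (X (l + 1)) k x = ((l : ℚ) + 1)⁻¹ • (((l : ℚ) + 1) • A.Y (X (l + 1)) k x) := by
      rw [smul_smul, inv_mul_cancel₀ h3, one_smul]
    rw [h4, h2, smul_smul, smul_smul]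
    have e1 : k - 1 - (l : ℤ) = k - ((l + 1 : ℕ) : ℤ) := by push_cast; ring
    rw [e1]
    congr 1
    have h5 : ((l : ℚ) + 1) * bc k (l + 1) = k * bc (k - 1) l := by
      unfold bc
      have a1 := Ring.descPochhammer_eq_factorial_smul_choose k (l + 1)
      have a2 := Ring.descPochhammer_eq_factorial_smul_choose (k - 1) l
      rw [← Polynomial.eval_eq_smeval] at a1 a2
      rw [descPochhammer_succ_left, Polynomial.eval_mul, Polynomial.eval_comp,
        Polynomial.eval_X, Polynomial.eval_sub, Polynomial.eval_X, Polynomial.eval_one, a2,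
        Nat.factorial_succ] at a1
      have hf : ((Nat.factorial l : ℕ) : ℤ) ≠ 0 := by exact_mod_cast (Nat.factorial_pos l).ne'
      have a3 : ((l : ℤ) + 1) * Ring.choose k (l + 1) = k * Ring.choose (k - 1) l := by
        apply mul_left_cancel₀ hf
        simp only [nsmul_eq_mul] at a1
        push_cast at a1
        linear_combination -a1
      exact_mod_cast a3
    field_simp
    rw [pow_succ]
    linear_combination ((-1 : ℚ) ^ l) * h5

end

end Pool.Agent.R336.VQ.Heis
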