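import Pool.Agent.R336.VQ.Heis2

/-!
# Weights and the invariant form of the Heisenberg vertex operator algebra
-/

set_option autoImplicit false

namespace Pool.Agent.R336.VQ.Heis

open MvPolynomial Pool.Agent.R336.VQ

section gen

variable {I V : Type} [AddCommGroup V] [Module ℚ V] (b : Module.Basis I ℚ V)
  (T : Module.End ℚ V) (w : I → ℤ) (hT : ∀ i, T (b i) = (w i : ℚ) • b i)

include hT

theorem repr_eq (v : V) (i : I) : b.repr (T v) i = (w i : ℚ) * b.repr v i := by
  have h : (b.coord i).comp T = (w i : ℚ) • b.coord i := by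
    apply b.ext
    intro j
    rw [LinearMap.comp_apply, hT, LinearMap.smul_apply, map_smul, b.coord_apply]
    by_cases hij : j = i
    · rw [hij]
    · rw [b.repr_self, Finsupp.single_eq_of_ne (Ne.symm hij)]
      simp
  have := LinearMap.congr_fun h v
  simpa using this

theorem ker_eq (n : ℤ) : LinearMap.ker (T - (n : ℚ) • (LinearMap.id : V →ₗ[ℚ] V)) =
    Submodule.span ℚ (b '' {i | w i = n}) := by
  apply le_antisymm
  · intro v hv
    rw [b.mem_span_image]
    intro i hi
    have h1 : T v = (n : ℚ) • v := by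
      have : T v - (n : ℚ) • v = 0 := by simpa using hv
      exact sub_eq_zero.1 this
    have h2 := repr_eq b T w hT v i
    rw [h1, map_smul, Finsupp.smul_apply, smul_eq_mul] at h2
    have h3 : b.repr v i ≠ 0 := by
      simpa using hi
    have h4 := mul_right_cancel₀ h3 h2
    show w i = n
    exact_mod_cast h4.symm
  · rw [Submodule.span_le]
    rintro _ ⟨i, hi, rfl⟩
    have hi' : w i = n := hi
    show b i ∈ LinearMap.ker (T - (n : ℚ) • (LinearMap.id : V →ₗ[ℚ] V))
    rw [LinearMap.mem_ker, LinearMap.sub_apply, hT, hi']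
    simp

theorem internal : DirectSum.IsInternal
    (fun n : ℤ => LinearMap.ker (T - (n : ℚ) • (LinearMap.id : V →ₗ[ℚ] V))) := by
  rw [DirectSum.isInternal_submodule_iff_iSupIndep_and_iSup_eq_top]
  constructor
  · have h1 := (Module.End.eigenspaces_iSupIndep T).comp (f := fun n : ℤ => (n : ℚ))
      Int.cast_injective
    have h2 : (T.eigenspace ∘ fun n : ℤ => (n : ℚ)) =
        fun n : ℤ => LinearMap.ker (T - (n : ℚ) • (LinearMap.id : V →ₗ[ℚ] V)) := by
      funext n
      rw [Function.comp_apply, Module.End.eigenspace_def]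
      rfl
    rw [h2] at h1
    exact h1
  · rw [eq_top_iff, ← b.span_eq, Submodule.span_le]
    rintro _ ⟨i, rfl⟩
    have h1 : b i ∈ LinearMap.ker (T - (w i : ℚ) • (LinearMap.id : V →ₗ[ℚ] V)) := by
      rw [LinearMap.mem_ker, LinearMap.sub_apply, hT]
      simp
    exact Submodule.mem_iSup_of_mem (w i) h1

end gen

/-- the weight of a monomial -/
def wS (s : ℕ →₀ ℕ) : ℕ := s.sum fun i k => k * (i + 1)

theorem wS_ge (s : ℕ →₀ ℕ) (i : ℕ) : s i * (i + 1) ≤ wS s := by
  unfold wS Finsupp.sum
  by_cases hi : i ∈ s.support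
  · exact Finset.single_le_sum (f := fun i => s i * (i + 1)) (fun _ _ => Nat.zero_le _) hi
  · rw [Finsupp.notMem_support_iff.1 hi, zero_mul]
    exact Nat.zero_le _

theorem NN_monomial (s : ℕ →₀ ℕ) : NN (monomial s 1) = ((wS s : ℕ) : ℚ) • monomial s 1 := by
  unfold NN
  rw [mkDerivation_monomial, one_smul]
  unfold wS Finsupp.sum
  rw [Nat.cast_sum, Finset.sum_smul]
  refine Finset.sum_congr rfl fun i hi => ?_
  have h0 : s i ≠ 0 := Finsupp.mem_support_iff.1 hi
  have h1 : s - Finsupp.single i 1 + Finsupp.single i 1 = s := by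
    ext j
    by_cases hj : j = i
    · subst hj
      simp
      omega
    · simp [Finsupp.single_eq_of_ne hj]
  show monomial (s - Finsupp.single i 1) ((s i : ℕ) : ℚ) • (C ((i : ℚ) + 1) * X i) =
    (((s i * (i + 1) : ℕ)) : ℚ) • (monomial s (1 : ℚ))
  rw [smul_eq_mul, X, C_mul_monomial, monomial_mul, h1, smul_monomial]
  congr 1
  push_cast
  simp

theorem finS (N : ℕ) : {s : ℕ →₀ ℕ | wS s ≤ N}.Finite := by
  refine Set.Finite.subset
    (Finset.finite_toSet (Finset.finsupp (Finset.range N) (fun _ => Finset.range (N + 1)))) ?_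
  intro s hs
  have hs' : wS s ≤ N := hs
  rw [Finset.mem_coe, Finset.mem_finsupp_iff]
  constructor
  · intro i hi
    have h0 : s i ≠ 0 := Finsupp.mem_support_iff.1 hi
    have h1 := wS_ge s i
    rw [Finset.mem_range]
    have h2 : 1 * (i + 1) ≤ s i * (i + 1) := Nat.mul_le_mul_right _ (Nat.pos_of_ne_zero h0)
    omega
  · intro i _
    have h1 := wS_ge s i
    rw [Finset.mem_range]
    have h2 : s i * 1 ≤ s i * (i + 1) := Nat.mul_le_mul_left _ (by omega)
    omega

theorem NN_bas (s : ℕ →₀ ℕ) : NN.toLinearMap (basisMonomials ℕ ℚ s) =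
    ((wS s : ℤ) : ℚ) • basisMonomials ℕ ℚ s := by
  rw [coe_basisMonomials]
  show NN (monomial s 1) = _
  rw [NN_monomial]
  rfl

/-- The vertex operator algebra. -/
noncomputable def voa (A : VertexAlgebra PP) (hA : Good A) : VOA PP :=
  { A with
    omega := om
    c := 1
    virasoro := fun m n v => vir hA m n v
    deriv := fun a n => by
      rw [om_zero hA]
      exact hA.T a n
    internal := by
      rw [om_1 hA]
      exact internal (basisMonomials ℕ ℚ) _ (fun s => (wS s : ℤ)) NN_bas
    finite := by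
      rw [om_1 hA]
      intro n
      rw [ker_eq (basisMonomials ℕ ℚ) _ (fun s => (wS s : ℤ)) NN_bas n]
      refine FiniteDimensional.span_of_finite ℚ (((finS n.toNat).subset ?_).image _)
      intro s hs
      have hs' : (wS s : ℤ) = n := hs
      show wS s ≤ n.toNat
      omega
    bounded := ⟨0, by
      rw [om_1 hA]
      intro n hn
      rw [ker_eq (basisMonomials ℕ ℚ) _ (fun s => (wS s : ℤ)) NN_bas n]
      have : {s : ℕ →₀ ℕ | (wS s : ℤ) = n} = ∅ := by
        ext s
        simp only [Set.mem_ofPred_eq, Set.mem_empty_iff_false, iff_false]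
        omega
      rw [this, Set.image_empty, Submodule.span_empty]⟩ }

/-! ### The form -/

/-- the norm of a monomial -/
def bw (s : ℕ →₀ ℕ) : ℚ := s.prod fun i k => (-((i : ℚ) + 1)) ^ k * (Nat.factorial k : ℚ)

theorem bw_ne (s : ℕ →₀ ℕ) : bw s ≠ 0 := by
  unfold bw Finsupp.prod
  rw [Finset.prod_ne_zero_iff]
  intro i _
  have h1 : (-((i : ℚ) + 1)) ≠ 0 := by
    have : (0 : ℚ) < (i : ℚ) + 1 := by positivity
    linarith
  exact mul_ne_zero (pow_ne_zero _ h1) (by exact_mod_cast (Nat.factorial_pos _).ne')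

theorem bw_add (s : ℕ →₀ ℕ) (l : ℕ) :
    bw (s + Finsupp.single l 1) = -((l : ℚ) + 1) * ((s l : ℚ) + 1) * bw s := by
  have hg : ∀ i : ℕ, (fun (i k : ℕ) => (-((i : ℚ) + 1)) ^ k * (Nat.factorial k : ℚ)) i 0 = 1 := by
    intro i; simp
  have h1 := Finsupp.mul_prod_erase' (s + Finsupp.single l 1) l
    (fun (i k : ℕ) => (-((i : ℚ) + 1)) ^ k * (Nat.factorial k : ℚ)) (fun i => hg i)
  have h2 := Finsupp.mul_prod_erase' s l
    (fun (i k : ℕ) => (-((i : ℚ) + 1)) ^ k * (Nat.factorial k : ℚ)) (fun i => hg i)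
  have h3 : Finsupp.erase l (s + Finsupp.single l 1) = Finsupp.erase l s := by
    ext j
    by_cases hj : j = l
    · subst hj; simp
    · rw [Finsupp.erase_ne hj, Finsupp.erase_ne hj, Finsupp.add_apply,
        Finsupp.single_eq_of_ne hj, add_zero]
  rw [h3] at h1
  unfold bw
  rw [← h1, ← h2, Finsupp.add_apply, Finsupp.single_eq_same]
  rw [pow_succ, Nat.factorial_succ]
  push_cast
  ring

/-- The bilinear form. -/
noncomputable def B : PP →ₗ[ℚ] PP →ₗ[ℚ] ℚ :=
  (basisMonomials ℕ ℚ).constr ℚ (fun s => bw s • lcoeff ℚ s)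

theorem B_mon (s : ℕ →₀ ℕ) (q : PP) : B (monomial s 1) q = bw s * coeff s q := by
  unfold B
  have h : (monomial s (1 : ℚ)) = basisMonomials ℕ ℚ s := by rw [coe_basisMonomials]
  rw [h, Module.Basis.constr_basis]
  rfl

theorem B_ext {F G : PP →ₗ[ℚ] PP →ₗ[ℚ] ℚ}
    (h : ∀ s t, F (monomial s 1) (monomial t 1) = G (monomial s 1) (monomial t 1)) : F = G := by
  apply (basisMonomials ℕ ℚ).ext
  intro s
  apply (basisMonomials ℕ ℚ).ext
  intro t
  rw [coe_basisMonomials]
  exact h s t

theorem B_symm (p q : PP) : B p q = B q p := by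
  have h : B = B.flip := by
    apply B_ext
    intro s t
    rw [LinearMap.flip_apply, B_mon, B_mon, coeff_monomial, coeff_monomial]
    by_cases hst : s = t
    · subst hst; rfl
    · rw [if_neg (Ne.symm hst), if_neg hst, mul_zero, mul_zero]
  exact congrArg (fun F : PP →ₗ[ℚ] PP →ₗ[ℚ] ℚ => F p q) h

theorem B_nondeg (p : PP) (h : ∀ q, B p q = 0) : p = 0 := by
  ext s
  have h1 := h (monomial s 1)
  rw [B_symm, B_mon] at h1
  rw [coeff_zero]
  exact (mul_eq_zero.1 h1).resolve_left (bw_ne s)

theorem B_one : B 1 1 = 1 := by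
  have h : (1 : PP) = monomial 0 1 := rfl
  rw [h, B_mon, coeff_monomial, if_pos rfl]
  unfold bw
  simp

/-- adjoint of the annihilation operators -/
theorem B_pos (l : ℕ) (p q : PP) : B (hO ((l : ℤ) + 1) p) q = -B p (hO (-(l : ℤ) - 1) q) := by
  have h : B.comp (hO ((l : ℤ) + 1)) = -(B.compl₂ (hO (-(l : ℤ) - 1))) := by
    apply B_ext
    intro s t
    rw [LinearMap.comp_apply, LinearMap.neg_apply, LinearMap.neg_apply, LinearMap.compl₂_apply,
      hO_pos, hO_neg, pderiv_monomial, one_mul]
    have e1 : (monomial (s - Finsupp.single l 1) ((s l : ℕ) : ℚ) : PP) =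
        ((s l : ℕ) : ℚ) • monomial (s - Finsupp.single l 1) 1 := by
      rw [smul_monomial, smul_eq_mul, mul_one]
    rw [e1, map_smul, map_smul, LinearMap.smul_apply, LinearMap.smul_apply, B_mon, B_mon, X,
      monomial_mul, one_mul, coeff_monomial, coeff_monomial, smul_eq_mul, smul_eq_mul]
    by_cases h1 : s = t + Finsupp.single l 1
    · subst h1
      rw [add_tsub_cancel_right, if_pos rfl, if_pos (add_comm _ _), bw_add, Finsupp.add_apply,
        Finsupp.single_eq_same]
      push_cast
      ring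
    · rw [if_neg (show ¬ (Finsupp.single l 1 + t = s) by
        intro h2; exact h1 (by rw [← h2, add_comm])), mul_zero, neg_zero]
      by_cases h2 : s l = 0
      · rw [h2]; simp
      · have h3 : ¬ (t = s - Finsupp.single l 1) := by
          intro h4
          apply h1
          rw [h4]
          ext j
          by_cases hj : j = l
          · subst hj
            simp
            omega
          · simp [Finsupp.single_eq_of_ne hj]
        rw [if_neg h3, mul_zero, mul_zero, mul_zero]
  exact congrArg (fun F : PP →ₗ[ℚ] PP →ₗ[ℚ] ℚ => F p q) h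

/-- adjoint of the Heisenberg operators -/
theorem B_adj (n : ℤ) (p q : PP) : B (hO n p) q = -B p (hO (-n) q) := by
  rcases tri n with ⟨l, rfl⟩ | rfl | ⟨l, rfl⟩
  · have e : -(-(l : ℤ) - 1) = (l : ℤ) + 1 := by ring
    rw [e, B_symm, B_symm p, B_pos, neg_neg]
  · rw [neg_zero, hO_zero, hO_zero, map_zero, map_zero, LinearMap.zero_apply, neg_zero]
  · have e : -((l : ℤ) + 1) = -(l : ℤ) - 1 := by ring
    rw [e, B_pos]

end Pool.Agent.R336.VQ.Heis
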