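import Pool.Agent.R336.VQ.Heis3

/-!
# Invariance of the form
-/

set_option autoImplicit false

namespace Pool.Agent.R336.VQ.Heis

open MvPolynomial Pool.Agent.R336.VQ

theorem wt_neg (v : PP) (j : ℕ) (h : NN v = (-((j : ℚ) + 1)) • v) : v = 0 := by
  have h1 : v ∈ LinearMap.ker (NN.toLinearMap - ((-(j : ℤ) - 1 : ℤ) : ℚ) •
      (LinearMap.id : PP →ₗ[ℚ] PP)) := by
    rw [LinearMap.mem_ker, LinearMap.sub_apply]
    show NN v - ((-(j : ℤ) - 1 : ℤ) : ℚ) • v = 0
    rw [h, sub_eq_zero]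
    congr 1
    push_cast
    ring
  rw [ker_eq (basisMonomials ℕ ℚ) _ (fun s => (wS s : ℤ)) NN_bas] at h1
  have : {s : ℕ →₀ ℕ | (wS s : ℤ) = -(j : ℤ) - 1} = ∅ := by
    ext s
    simp only [Set.mem_ofPred_eq, Set.mem_empty_iff_false, iff_false]
    omega
  rw [this, Set.image_empty, Submodule.span_empty] at h1
  exact (Submodule.mem_bot ℚ).1 h1

section

variable {A : VertexAlgebra PP} (hA : Good A)
include hA

theorem L1_X0 (w : PP) : A.Y om 2 (X 0 * w) = X 0 * A.Y om 2 w := by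
  rw [omX0 hA, show (2 : ℤ) - 2 = 0 by norm_num, hO_zero, add_zero]

theorem L1_pow_X0 (i : ℕ) (w : PP) : ((A.Y om 2) ^ i) (X 0 * w) = X 0 * ((A.Y om 2) ^ i) w := by
  induction i generalizing w with
  | zero => rfl
  | succ i ih =>
    rw [pow_succ, Module.End.mul_apply, Module.End.mul_apply, L1_X0 hA, ih]

theorem NN_L1 (v : PP) : NN (A.Y om 2 v) = A.Y om 2 (NN v) - A.Y om 2 v := by
  have h := vir hA 0 1 v
  have e1 : A.Y om (0 + 1) = NN.toLinearMap := by rw [zero_add, om_1 hA]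
  have e2 : (1 : ℤ) + 1 = 2 := by norm_num
  have e3 : (0 : ℤ) + 1 + 1 = 2 := by norm_num
  rw [e1, e2, e3, if_neg (by norm_num), zero_smul, add_zero] at h
  have h' : NN (A.Y om 2 v) - A.Y om 2 (NN v) = (((0 : ℤ) : ℚ) - ((1 : ℤ) : ℚ)) • A.Y om 2 v := h
  have : NN (A.Y om 2 v) = A.Y om 2 (NN v) +
    (((0 : ℤ) : ℚ) - ((1 : ℤ) : ℚ)) • A.Y om 2 v := by rw [← h']; abel
  rw [this]
  push_cast
  module

theorem L1_DD (v : PP) : A.Y om 2 (DD v) = DD (A.Y om 2 v) + (2 : ℚ) • NN v := by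
  have h := vir hA 1 (-1) v
  have e1 : A.Y om (-1 + 1) = DD.toLinearMap := by
    rw [show (-1 : ℤ) + 1 = 0 by norm_num, om_zero hA]
  have e2 : (1 : ℤ) + 1 = 2 := by norm_num
  have e3 : A.Y om (1 + (-1) + 1) = NN.toLinearMap := by
    rw [show (1 : ℤ) + (-1) + 1 = 1 by norm_num, om_1 hA]
  rw [e1, e2, e3, if_pos (by norm_num)] at h
  have h' : A.Y om 2 (DD v) - DD (A.Y om 2 v) = (((1 : ℤ) : ℚ) - ((-1 : ℤ) : ℚ)) • NN v +
    ((((1 : ℤ) : ℚ) ^ 3 - ((1 : ℤ) : ℚ)) / 12 * 1) • v := h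
  have : A.Y om 2 (DD v) = DD (A.Y om 2 v) + ((((1 : ℤ) : ℚ) - ((-1 : ℤ) : ℚ)) • NN v +
    ((((1 : ℤ) : ℚ) ^ 3 - ((1 : ℤ) : ℚ)) / 12 * 1) • v) := by rw [← h']; abel
  rw [this]
  push_cast
  module

theorem NN_L1_pow (m : ℚ) (a : PP) (ha : NN a = m • a) (i : ℕ) :
    NN (((A.Y om 2) ^ i) a) = (m - i) • ((A.Y om 2) ^ i) a := by
  induction i with
  | zero => simpa using ha
  | succ i ih =>
    rw [pow_succ', Module.End.mul_apply, NN_L1 hA, ih, map_smul]
    push_cast
    module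

theorem L1_pow_DD (m : ℚ) (a : PP) (ha : NN a = m • a) (i : ℕ) :
    ((A.Y om 2) ^ (i + 1)) (DD a) = DD (((A.Y om 2) ^ (i + 1)) a) +
      (((i : ℚ) + 1) * (2 * m - i)) • ((A.Y om 2) ^ i) a := by
  induction i with
  | zero =>
    rw [zero_add, pow_one, pow_zero, L1_DD hA, ha]
    push_cast
    rw [smul_smul]
    congr 2
    ring
  | succ i ih =>
    rw [pow_succ', Module.End.mul_apply, ih, map_add, L1_DD hA, NN_L1_pow hA m a ha, map_smul,
      ← Module.End.mul_apply, ← pow_succ', ← Module.End.mul_apply, ← pow_succ', smul_smul]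
    push_cast
    rw [add_assoc, ← add_smul]
    congr 2
    ring

theorem L1_nil (k : ℕ) (a : PP) (ha : NN a = (k : ℚ) • a) (i : ℕ) (hi : k < i) :
    ((A.Y om 2) ^ i) a = 0 := by
  apply wt_neg _ (i - k - 1)
  rw [NN_L1_pow hA k a ha]
  congr 1
  have : ((i - k - 1 : ℕ) : ℚ) = (i : ℚ) - k - 1 := by
    rw [Nat.cast_sub (by omega), Nat.cast_sub (by omega)]
    push_cast
    ring
  rw [this]
  ring

theorem key (x c b : PP) (p : ℤ) : ∃ S0 : ℕ, ∀ S, S0 ≤ S →
    B b (A.Y (X 0 * x) p c) = ∑ s ∈ Finset.range S,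
      (B b (A.Y x (p - 2 - s) (hO (1 + s) c)) + B b (hO (-s) (A.Y x (p + s - 1) c))) := by
  obtain ⟨S0, h0⟩ := assoc1_fin A (X 0) x c p
  obtain ⟨N1, h1⟩ := A.trunc x c
  obtain ⟨N2, h2⟩ := hO_fl c
  have e0 : A.Y (X 0) (-1) x = X 0 * x := by rw [Yc hA, hm1 hA]
  rw [e0] at h0
  refine ⟨S0 + (N1 - p + 1).toNat + N2.toNat, fun S hS => ?_⟩
  rw [h0 S (by omega), map_sum]
  simp only [map_add, hA.Yh]
  rw [Finset.sum_add_distrib, Finset.sum_add_distrib]
  -- first kind of terms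
  have a1 : ∑ s ∈ Finset.range S, B b (hO (-s) (A.Y x (p + s - 1) c)) =
      ∑ s ∈ Finset.range S, B b (hO (-1 - s) (A.Y x (p + s) c)) := by
    have h3 := Finset.sum_range_succ' (fun s : ℕ => B b (hO (-s) (A.Y x (p + s - 1) c))) S
    have h4 := Finset.sum_range_succ (fun s : ℕ => B b (hO (-s) (A.Y x (p + s - 1) c))) S
    have h5 : A.Y x (p + S - 1) c = 0 := h1 _ (by omega)
    rw [h4, h5, map_zero, map_zero, add_zero] at h3
    rw [h3, Nat.cast_zero, neg_zero, hO_zero, map_zero, add_zero]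
    refine Finset.sum_congr rfl fun s _ => ?_
    have e1 : -((s + 1 : ℕ) : ℤ) = -1 - s := by push_cast; ring
    have e2 : p + ((s + 1 : ℕ) : ℤ) - 1 = p + s := by push_cast; ring
    rw [e1, e2]
  have a2 : ∑ s ∈ Finset.range S, B b (A.Y x (p - 2 - s) (hO (1 + s) c)) =
      ∑ s ∈ Finset.range S, B b (A.Y x (p - 1 - s) (hO s c)) := by
    have h3 := Finset.sum_range_succ' (fun s : ℕ => B b (A.Y x (p - 1 - s) (hO s c))) S
    have h4 := Finset.sum_range_succ (fun s : ℕ => B b (A.Y x (p - 1 - s) (hO s c))) S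
    have h5 : hO (S : ℤ) c = 0 := h2 _ (by omega)
    have h6 : hO ((0 : ℕ) : ℤ) c = 0 := hO_zero c
    rw [h4, h5, map_zero, map_zero, add_zero, h6, map_zero, map_zero, add_zero] at h3
    rw [h3]
    refine Finset.sum_congr rfl fun s _ => ?_
    have e1 : ((s + 1 : ℕ) : ℤ) = 1 + s := by push_cast; ring
    have e2 : p - 1 - ((s + 1 : ℕ) : ℤ) = p - 2 - s := by push_cast; ring
    rw [e2, e1]
  rw [a1, a2]
  exact add_comm _ _

end

/-- invariance, for an element of weight `k` -/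
def InvS (A : VertexAlgebra PP) (k : ℕ) (a : PP) : Prop := ∀ (n : ℤ) (b c : PP),
  B (A.Y a n b) c = ∑ i ∈ Finset.range (k + 1), ((-1 : ℚ) ^ k / (Nat.factorial i : ℚ)) *
    B b (A.Y (((A.Y om 2) ^ i) a) (2 * k - n - i - 2) c)

section

variable {A : VertexAlgebra PP} (hA : Good A)
include hA

theorem inv_add (k : ℕ) (a a' : PP) (h : InvS A k a) (h' : InvS A k a') : InvS A k (a + a') := by
  intro n b c
  rw [map_add, Pi.add_apply, LinearMap.add_apply, map_add, LinearMap.add_apply, h, h',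
    ← Finset.sum_add_distrib]
  refine Finset.sum_congr rfl fun i _ => ?_
  rw [map_add, map_add, Pi.add_apply, LinearMap.add_apply, map_add, mul_add]

theorem inv_smul (k : ℕ) (r : ℚ) (a : PP) (h : InvS A k a) : InvS A k (r • a) := by
  intro n b c
  rw [map_smul, Pi.smul_apply, LinearMap.smul_apply, map_smul, LinearMap.smul_apply, h,
    Finset.smul_sum]
  refine Finset.sum_congr rfl fun i _ => ?_
  rw [map_smul, map_smul, Pi.smul_apply, LinearMap.smul_apply, map_smul, smul_eq_mul, smul_eq_mul]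
  ring

theorem inv_zero_mem (k : ℕ) : InvS A k 0 := by
  have := inv_smul hA k 0 (0 : PP)
  intro n b c
  rw [map_zero, Pi.zero_apply, LinearMap.zero_apply, map_zero, LinearMap.zero_apply]
  symm
  apply Finset.sum_eq_zero
  intro i _
  rw [map_zero, map_zero, Pi.zero_apply, LinearMap.zero_apply, map_zero, mul_zero]

theorem inv_one : InvS A 0 1 := by
  intro n b c
  rw [Finset.sum_range_one, pow_zero, pow_zero, Nat.factorial_zero, Module.End.one_apply,
    Nat.cast_one, div_one, one_mul, ← hA.one, A.one_left, A.one_left]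
  by_cases h : n = -1
  · rw [if_pos h, if_pos (by subst h; norm_num)]
  · rw [if_neg h, if_neg (by push_cast; omega), map_zero, map_zero, LinearMap.zero_apply]

theorem inv_T (k : ℕ) (a : PP) (ha : NN a = (k : ℚ) • a) (h : InvS A k a) :
    InvS A (k + 1) (DD a) := by
  intro n b c
  set s : ℕ → ℚ := fun i => (1 / (Nat.factorial i : ℚ)) *
    B b (A.Y (((A.Y om 2) ^ i) a) (2 * k - n - i - 1) c) with hs
  have hsk : s (k + 1) = 0 := by
    rw [hs]
    simp only
    rw [L1_nil hA k a ha (k + 1) (by omega), map_zero, Pi.zero_apply, LinearMap.zero_apply,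
      map_zero, mul_zero]
  -- left side
  have hL : B (A.Y (DD a) n b) c = (-(n : ℚ)) * ((-1 : ℚ) ^ k * ∑ i ∈ Finset.range (k + 1), s i) := by
    rw [hA.T, LinearMap.smul_apply, map_smul, LinearMap.smul_apply, h, smul_eq_mul,
      Finset.mul_sum (a := (-1 : ℚ) ^ k)]
    congr 1
    refine Finset.sum_congr rfl fun i _ => ?_
    rw [hs]
    simp only
    have e : 2 * (k : ℤ) - (n - 1) - i - 2 = 2 * k - n - i - 1 := by ring
    rw [e]
    ring
  have hR : ∀ i : ℕ, (1 / (Nat.factorial (i + 1) : ℚ)) * B b (A.Y (((A.Y om 2) ^ (i + 1)) (DD a))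
      (2 * (k + 1 : ℕ) - n - (i + 1 : ℕ) - 2) c) =
      -(2 * (k : ℚ) - n - (i + 1 : ℕ)) * s (i + 1) + (2 * (k : ℚ) - i) * s i := by
    intro i
    rw [L1_pow_DD hA k a ha i, map_add, Pi.add_apply, LinearMap.add_apply, map_add, hA.T,
      LinearMap.smul_apply, map_smul, map_smul, Pi.smul_apply, LinearMap.smul_apply, map_smul,
      smul_eq_mul, smul_eq_mul, hs]
    simp only
    have e1 : 2 * ((k + 1 : ℕ) : ℤ) - n - ((i + 1 : ℕ) : ℤ) - 2 - 1 =
        2 * k - n - ((i + 1 : ℕ) : ℤ) - 1 := by push_cast; ring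
    have e2 : 2 * ((k + 1 : ℕ) : ℤ) - n - ((i + 1 : ℕ) : ℤ) - 2 = 2 * k - n - i - 1 := by
      push_cast; ring
    rw [e1, e2, Nat.factorial_succ]
    have hf : ((Nat.factorial i : ℕ) : ℚ) ≠ 0 := by exact_mod_cast (Nat.factorial_pos i).ne'
    have hi : ((i : ℚ) + 1) ≠ 0 := by positivity
    push_cast
    field_simp
    ring
  have hR0 : (1 / (Nat.factorial 0 : ℚ)) * B b (A.Y (((A.Y om 2) ^ 0) (DD a))
      (2 * (k + 1 : ℕ) - n - (0 : ℕ) - 2) c) = -(2 * (k : ℚ) - n - (0 : ℕ)) * s 0 := by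
    rw [pow_zero, Module.End.one_apply, hA.T, LinearMap.smul_apply, map_smul,
      smul_eq_mul, hs]
    simp only
    rw [pow_zero, Module.End.one_apply]
    have e1 : 2 * ((k + 1 : ℕ) : ℤ) - n - ((0 : ℕ) : ℤ) - 2 - 1 =
        2 * k - n - ((0 : ℕ) : ℤ) - 1 := by push_cast; ring
    rw [e1]
    push_cast
    ring
  rw [hL]
  have hsum : ∑ i ∈ Finset.range (k + 1 + 1), ((-1 : ℚ) ^ (k + 1) / (Nat.factorial i : ℚ)) *
      B b (A.Y (((A.Y om 2) ^ i) (DD a)) (2 * (k + 1 : ℕ) - n - i - 2) c) =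
      (-1 : ℚ) ^ (k + 1) * ∑ i ∈ Finset.range (k + 1 + 1), (1 / (Nat.factorial i : ℚ)) *
      B b (A.Y (((A.Y om 2) ^ i) (DD a)) (2 * (k + 1 : ℕ) - n - i - 2) c) := by
    rw [Finset.mul_sum]
    refine Finset.sum_congr rfl fun i _ => ?_
    ring
  have h8 := Finset.sum_range_succ' (fun i : ℕ => (1 / (Nat.factorial i : ℚ)) *
      B b (A.Y (((A.Y om 2) ^ i) (DD a)) (2 * (k + 1 : ℕ) - n - i - 2) c)) (k + 1)
  beta_reduce at h8
  rw [hsum, h8, hR0]
  rw [Finset.sum_congr rfl (fun i _ => hR i), Finset.sum_add_distrib]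
  have h5 := Finset.sum_range_succ' (fun i : ℕ => -(2 * (k : ℚ) - n - (i : ℕ)) * s i) (k + 1)
  have h6 := Finset.sum_range_succ (fun i : ℕ => -(2 * (k : ℚ) - n - (i : ℕ)) * s i) (k + 1)
  rw [hsk, mul_zero, add_zero] at h6
  have h7 : ∑ i ∈ Finset.range (k + 1), -(2 * (k : ℚ) - n - (i + 1 : ℕ)) * s (i + 1) +
      ∑ i ∈ Finset.range (k + 1), (2 * (k : ℚ) - i) * s i + -(2 * (k : ℚ) - n - (0 : ℕ)) * s 0 =
      ∑ i ∈ Finset.range (k + 1), -(2 * (k : ℚ) - n - (i : ℕ)) * s i +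
      ∑ i ∈ Finset.range (k + 1), (2 * (k : ℚ) - i) * s i := by
    rw [← h6, h5]
    ring
  rw [h7, ← Finset.sum_add_distrib, Finset.mul_sum, Finset.mul_sum, Finset.mul_sum]
  refine Finset.sum_congr rfl fun i _ => ?_
  rw [pow_succ]
  ring

theorem inv_H (k : ℕ) (a : PP) (ha : NN a = (k : ℚ) • a) (h : InvS A k a) :
    InvS A (k + 1) (X 0 * a) := by
  intro n b c
  have hk : ((A.Y om 2) ^ (k + 1)) (X 0 * a) = 0 := by
    rw [L1_pow_X0 hA, L1_nil hA k a ha (k + 1) (by omega), mul_zero]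
  rw [Finset.sum_range_succ, hk, map_zero, Pi.zero_apply, LinearMap.zero_apply, map_zero, mul_zero,
    add_zero]
  obtain ⟨S0, h0⟩ := assoc1_fin A (X 0) a b n
  have e0 : A.Y (X 0) (-1) a = X 0 * a := by rw [Yc hA, hm1 hA]
  rw [e0] at h0
  choose Sf hSf using fun i : ℕ => key hA (((A.Y om 2) ^ i) a) c b (2 * (k : ℤ) - n - i)
  set S := S0 + ∑ i ∈ Finset.range (k + 1), Sf i with hS
  have hSi : ∀ i ∈ Finset.range (k + 1), Sf i ≤ S := by
    intro i hi
    have := Finset.single_le_sum (f := Sf) (fun _ _ => Nat.zero_le _) hi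
    omega
  rw [h0 S (by omega), map_sum, LinearMap.sum_apply]
  have hterm : ∀ s : ℕ, B (A.Y (X 0) (-1 - s) (A.Y a (n + s) b) +
      A.Y a (n - 1 - s) (A.Y (X 0) s b)) c =
      ∑ i ∈ Finset.range (k + 1), ((-1 : ℚ) ^ (k + 1) / (Nat.factorial i : ℚ)) *
        (B b (A.Y (((A.Y om 2) ^ i) a) (2 * (k : ℤ) - n - i - 2 - s) (hO (1 + s) c)) +
          B b (hO (-s) (A.Y (((A.Y om 2) ^ i) a) (2 * (k : ℤ) - n - i + s - 1) c))) := by
    intro s
    rw [map_add, LinearMap.add_apply, hA.Yh, B_adj, h, h, ← Finset.sum_neg_distrib,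
      ← Finset.sum_add_distrib]
    refine Finset.sum_congr rfl fun i _ => ?_
    have e1 : -(-1 - (s : ℤ)) = 1 + s := by ring
    have e2 : 2 * (k : ℤ) - (n + s) - i - 2 = 2 * (k : ℤ) - n - i - 2 - s := by ring
    have e3 : 2 * (k : ℤ) - (n - 1 - s) - i - 2 = 2 * (k : ℤ) - n - i + s - 1 := by ring
    rw [e1, e2, e3, B_adj, pow_succ]
    ring
  rw [Finset.sum_congr rfl (fun s _ => hterm s), Finset.sum_comm]
  refine Finset.sum_congr rfl fun i hi => ?_
  rw [← Finset.mul_sum, ← hSf i S (hSi i hi), L1_pow_X0 hA]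
  congr 3
  have e4 : 2 * ((k + 1 : ℕ) : ℤ) - n - i - 2 = 2 * (k : ℤ) - n - i := by push_cast; ring
  rw [e4]

/-- invariance of the form -/
theorem inv_all (k : ℕ) : ∀ a : PP, NN a = (k : ℚ) • a → InvS A k a := by
  induction k with
  | zero =>
    intro a ha
    have h1 : a ∈ LinearMap.ker (NN.toLinearMap - (((0 : ℤ)) : ℚ) •
        (LinearMap.id : PP →ₗ[ℚ] PP)) := by
      rw [LinearMap.mem_ker, LinearMap.sub_apply]
      show NN a - ((0 : ℤ) : ℚ) • a = 0
      rw [ha, sub_eq_zero]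
      congr 1
    rw [ker_eq (basisMonomials ℕ ℚ) _ (fun s => (wS s : ℤ)) NN_bas] at h1
    have h2 : (basisMonomials ℕ ℚ) '' {s : ℕ →₀ ℕ | (wS s : ℤ) = 0} ⊆ {1} := by
      rintro _ ⟨s, hs, rfl⟩
      have hs' : (wS s : ℤ) = 0 := hs
      have h3 : s = 0 := by
        ext i
        have := wS_ge s i
        have h4 : wS s = 0 := by exact_mod_cast hs'
        rw [h4] at this
        have h5 : s i * (i + 1) = 0 := Nat.le_zero.1 this
        simpa using h5
      rw [h3, coe_basisMonomials]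
      rfl
    have h3 := Submodule.span_mono h2 h1
    rw [Submodule.mem_span_singleton] at h3
    obtain ⟨r, rfl⟩ := h3
    exact inv_smul hA 0 r 1 (inv_one hA)
  | succ k ih =>
    have claim : ∀ (l : ℕ) (p : PP), NN p = ((k : ℚ) - l) • p → InvS A (k + 1) (X l * p) := by
      intro l
      induction l with
      | zero =>
        intro p hp
        rw [Nat.cast_zero, sub_zero] at hp
        exact inv_H hA k p hp (ih p hp)
      | succ l ihl =>
        intro p hp
        have e1 : NN (X l * p) = (k : ℚ) • (X l * p) := by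
          have := nh (-(l : ℤ) - 1) p
          rw [hO_neg, hO_neg, hp, mul_smul_comm] at this
          have h2 : NN (X l * p) = ((k : ℚ) - ((l + 1 : ℕ) : ℚ)) • (X l * p) +
            (-(((-(l : ℤ) - 1 : ℤ) : ℚ))) • (X l * p) := by rw [← this]; abel
          rw [h2, ← add_smul]
          congr 1
          push_cast
          ring
        have e2 : NN (DD p) = ((k : ℚ) - l) • DD p := by
          have h3 := vir hA 0 (-1) p
          have a1 : A.Y om (0 + 1) = NN.toLinearMap := by rw [zero_add, om_1 hA]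
          have a2 : A.Y om (-1 + 1) = DD.toLinearMap := by
            rw [show (-1 : ℤ) + 1 = 0 by norm_num, om_zero hA]
          have a3 : A.Y om (0 + (-1) + 1) = DD.toLinearMap := by
            rw [show (0 : ℤ) + (-1) + 1 = 0 by norm_num, om_zero hA]
          rw [a1, a2, a3, if_neg (by norm_num), zero_smul, add_zero] at h3
          have h4 : NN (DD p) - DD (NN p) = (((0 : ℤ) : ℚ) - ((-1 : ℤ) : ℚ)) • DD p := h3
          rw [hp, Derivation.map_smul] at h4
          have h5 : NN (DD p) = ((k : ℚ) - ((l + 1 : ℕ) : ℚ)) • DD p +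
            (((0 : ℤ) : ℚ) - ((-1 : ℤ) : ℚ)) • DD p := by rw [← h4]; abel
          rw [h5, ← add_smul]
          congr 1
          push_cast
          ring
        have e3 : X (l + 1) * p = ((l : ℚ) + 1)⁻¹ • (DD (X l * p) + (-1 : ℚ) • (X l * DD p)) := by
          rw [Derivation.leibniz, DD_X, smul_eq_mul, smul_eq_mul]
          have h3 : ((l : ℚ) + 1) ≠ 0 := by positivity
          have h4 : X l * DD p + p * (C ((l : ℚ) + 1) * X (l + 1)) + (-1 : ℚ) • (X l * DD p) =
              ((l : ℚ) + 1) • (X (l + 1) * p) := by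
            rw [MvPolynomial.smul_eq_C_mul, MvPolynomial.smul_eq_C_mul]
            rw [show (C (-1 : ℚ) : PP) = -1 by rw [C_neg, C_1]]
            ring
          rw [h4, smul_smul, inv_mul_cancel₀ h3, one_smul]
        rw [e3]
        exact inv_smul hA _ _ _ (inv_add hA _ _ _ (inv_T hA k _ e1 (ih _ e1))
          (inv_smul hA _ _ _ (ihl _ e2)))
    intro a ha
    have h1 : a ∈ LinearMap.ker (NN.toLinearMap - (((k : ℤ) + 1 : ℤ) : ℚ) •
        (LinearMap.id : PP →ₗ[ℚ] PP)) := by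
      rw [LinearMap.mem_ker, LinearMap.sub_apply]
      show NN a - (((k : ℤ) + 1 : ℤ) : ℚ) • a = 0
      rw [ha, sub_eq_zero]
      congr 1
    rw [ker_eq (basisMonomials ℕ ℚ) _ (fun s => (wS s : ℤ)) NN_bas] at h1
    let G : Submodule ℚ PP :=
      { carrier := {a | InvS A (k + 1) a}
        add_mem' := fun {a b} h h' => inv_add hA _ _ _ h h'
        zero_mem' := inv_zero_mem hA _
        smul_mem' := fun r a h => inv_smul hA _ r a h }
    have h2 : Submodule.span ℚ ((basisMonomials ℕ ℚ) '' {s : ℕ →₀ ℕ | (wS s : ℤ) = (k : ℤ) + 1}) ≤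
        G := by
      rw [Submodule.span_le]
      rintro _ ⟨s, hs, rfl⟩
      have hs' : (wS s : ℤ) = (k : ℤ) + 1 := hs
      have hne : s ≠ 0 := by
        rintro rfl
        unfold wS at hs'
        simp at hs'
        omega
      obtain ⟨l, hl⟩ := Finsupp.support_nonempty_iff.2 hne
      have hl' : s l ≠ 0 := Finsupp.mem_support_iff.1 hl
      have h1' : Finsupp.single l 1 + (s - Finsupp.single l 1) = s := by
        ext j
        by_cases hj : j = l
        · subst hj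
          simp
          omega
        · simp [Finsupp.single_eq_of_ne hj]
      have h3 : (basisMonomials ℕ ℚ) s = X l * monomial (s - Finsupp.single l 1) 1 := by
        rw [coe_basisMonomials, X, monomial_mul, one_mul, h1']
      show InvS A (k + 1) _
      rw [h3]
      apply claim
      rw [NN_monomial]
      congr 1
      have h4 : NN (X l * monomial (s - Finsupp.single l 1) 1 : PP) =
          ((wS s : ℕ) : ℚ) • (X l * monomial (s - Finsupp.single l 1) 1 : PP) := by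
        rw [X, monomial_mul, one_mul, h1', NN_monomial]
      have h5 := nh (-(l : ℤ) - 1) (monomial (s - Finsupp.single l 1) 1)
      rw [hO_neg, hO_neg, NN_monomial, h4, mul_smul_comm, ← sub_smul] at h5
      have h6 : (X l * monomial (s - Finsupp.single l 1) 1 : PP) ≠ 0 := by
        rw [X, monomial_mul, one_mul, h1']
        simp
      have h7 := smul_left_injective ℚ h6 h5
      have h8 : ((wS s : ℕ) : ℚ) = (k : ℚ) + 1 := by exact_mod_cast hs'
      rw [h8] at h7
      push_cast at h7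
      linarith
    exact h2 h1

end

end Pool.Agent.R336.VQ.Heis
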