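import Pool.Agent.R336.VQ.Heis4

/-!
# An integral form with unbounded denominators
-/

set_option autoImplicit false

namespace Pool.Agent.R336.VQ.Heis

open MvPolynomial Pool.Agent.R336.VQ

/-! ### Binomial coefficients -/

theorem ch_succ (k : ℤ) (l : ℕ) :
    ((l : ℤ) + 1) * Ring.choose k (l + 1) = (k - l) * Ring.choose k l := by
  have a1 := Ring.descPochhammer_eq_factorial_smul_choose k (l + 1)
  have a2 := Ring.descPochhammer_eq_factorial_smul_choose k l
  rw [← Polynomial.eval_eq_smeval] at a1 a2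
  rw [descPochhammer_succ_eval, a2, Nat.factorial_succ] at a1
  have hf : ((Nat.factorial l : ℕ) : ℤ) ≠ 0 := by exact_mod_cast (Nat.factorial_pos l).ne'
  apply mul_left_cancel₀ hf
  simp only [nsmul_eq_mul] at a1
  push_cast at a1
  linear_combination -a1

theorem ch_pred (k : ℤ) (l : ℕ) :
    ((l : ℤ) + 1) * Ring.choose k (l + 1) = k * Ring.choose (k - 1) l := by
  have a1 := Ring.descPochhammer_eq_factorial_smul_choose k (l + 1)
  have a2 := Ring.descPochhammer_eq_factorial_smul_choose (k - 1) l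
  rw [← Polynomial.eval_eq_smeval] at a1 a2
  rw [descPochhammer_succ_left, Polynomial.eval_mul, Polynomial.eval_comp,
    Polynomial.eval_X, Polynomial.eval_sub, Polynomial.eval_X, Polynomial.eval_one, a2,
    Nat.factorial_succ] at a1
  have hf : ((Nat.factorial l : ℕ) : ℤ) ≠ 0 := by exact_mod_cast (Nat.factorial_pos l).ne'
  apply mul_left_cancel₀ hf
  simp only [nsmul_eq_mul] at a1
  push_cast at a1
  linear_combination -a1

theorem three_dvd {x c : ℤ} (hx : ¬ (3 : ℤ) ∣ x) (h : (3 : ℤ) ∣ x * c) : (3 : ℤ) ∣ c :=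
  (Int.prime_three.dvd_or_dvd h).resolve_left hx

theorem three_dvd_choose (k : ℤ) (l : ℕ) (hl : (l + 1) % 9 = 0 ∨ (l + 1) % 9 = 6)
    (ht : ¬ ((k - l) % 9 = 0 ∨ (k - l) % 9 = 3)) : (3 : ℤ) ∣ Ring.choose k l := by
  have h1 := ch_succ k l
  rcases hl with hl | hl
  · -- `9 ∣ l + 1`
    obtain ⟨n, hn⟩ : ∃ n : ℤ, (l : ℤ) + 1 = 9 * n := ⟨((l : ℤ) + 1) / 9, by omega⟩
    rw [hn] at h1
    by_cases h3 : (3 : ℤ) ∣ k - l
    · obtain ⟨t, ht'⟩ := h3
      have h4 : ¬ (3 : ℤ) ∣ t := by omega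
      apply three_dvd h4
      rw [ht'] at h1
      exact ⟨n * Ring.choose k (l + 1), by linarith⟩
    · apply three_dvd h3
      rw [← h1]
      exact ⟨3 * n * Ring.choose k (l + 1), by ring⟩
  · by_cases h3 : (3 : ℤ) ∣ k - l
    · -- `l + 1 = 6`, `k = 2` modulo `9`
      obtain ⟨j, rfl⟩ : ∃ j, l = j + 3 := ⟨l - 3, by omega⟩
      have b1 := ch_pred k (j + 2)
      have b2 := ch_pred (k - 1) (j + 1)
      have b3 := ch_pred (k - 1 - 1) j
      obtain ⟨n, hn⟩ : ∃ n : ℤ, k - 1 - 1 = 9 * n := by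
        push_cast at ht h3
        have h5 : (k - 2) % 9 = 0 := by omega
        exact ⟨(k - 2) / 9, by omega⟩
      obtain ⟨u, hu⟩ : ∃ u : ℤ, (j : ℤ) + 1 = 3 * u := ⟨((j : ℤ) + 1) / 3, by omega⟩
      have hu3 : ¬ (3 : ℤ) ∣ u := by omega
      have c1 : ¬ (3 : ℤ) ∣ ((j + 2 : ℕ) : ℤ) + 1 := by push_cast; omega
      have c2 : ¬ (3 : ℤ) ∣ ((j + 1 : ℕ) : ℤ) + 1 := by push_cast; omega
      apply three_dvd c1
      apply three_dvd c2
      apply three_dvd hu3
      rw [hu, hn] at b3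
      have b4 : u * Ring.choose (k - 1 - 1) (j + 1) = 3 * (n * Ring.choose (k - 1 - 1 - 1) j) := by
        rw [hn]
        linarith
      refine ⟨k * (k - 1) * (n * Ring.choose (k - 1 - 1 - 1) j), ?_⟩
      calc u * ((((j + 1 : ℕ) : ℤ) + 1) * ((((j + 2 : ℕ) : ℤ) + 1) * Ring.choose k (j + 3)))
          = u * ((((j + 1 : ℕ) : ℤ) + 1) * (k * Ring.choose (k - 1) (j + 2))) := by rw [b1]
        _ = u * k * ((((j + 1 : ℕ) : ℤ) + 1) * Ring.choose (k - 1) (j + 1 + 1)) := by ring
        _ = u * k * ((k - 1) * Ring.choose (k - 1 - 1) (j + 1)) := by rw [b2]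
        _ = k * (k - 1) * (u * Ring.choose (k - 1 - 1) (j + 1)) := by ring
        _ = k * (k - 1) * (3 * (n * Ring.choose (k - 1 - 1 - 1) j)) := by rw [b4]
        _ = 3 * (k * (k - 1) * (n * Ring.choose (k - 1 - 1 - 1) j)) := by ring
    · apply three_dvd h3
      rw [← h1]
      obtain ⟨n, hn⟩ : ∃ n : ℤ, (l : ℤ) + 1 = 3 * n := ⟨((l : ℤ) + 1) / 3, by omega⟩
      rw [hn]
      exact ⟨n * Ring.choose k (l + 1), by ring⟩

/-! ### The lattice -/

/-- the exponents -/
def ep (i : ℕ) : ℕ := if (i + 1) % 9 = 0 ∨ (i + 1) % 9 = 6 then 1 else 0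

/-- the scalars -/
noncomputable def cc (i : ℕ) : ℚ := 1 / 3 ^ ep i

theorem cc_ne (i : ℕ) : cc i ≠ 0 := by
  unfold cc
  positivity

/-- the generators -/
noncomputable def zz (i : ℕ) : PP := C (cc i) * X i

/-- the ring homomorphism `X_i ↦ z_i` -/
noncomputable def Ph : MvPolynomial ℕ ℤ →+* PP := eval₂Hom (Int.castRingHom PP) zz

/-- the lattice -/
noncomputable def J : AddSubgroup PP := Ph.toAddMonoidHom.range

theorem mem_J (p : MvPolynomial ℕ ℤ) : Ph p ∈ J := ⟨p, rfl⟩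

theorem Ph_X (i : ℕ) : Ph (X i) = zz i := by
  unfold Ph
  rw [coe_eval₂Hom, eval₂_X]

theorem Ph_C (a : ℤ) : Ph (C a) = (a : PP) := by
  unfold Ph
  rw [coe_eval₂Hom, eval₂_C]
  rfl

theorem zmul {p : PP} (hp : p ∈ J) (z : ℤ) : (z : ℚ) • p ∈ J := by
  have : (z : ℚ) • p = z • p := by
    rw [← Int.cast_smul_eq_zsmul ℚ]
  rw [this]
  exact J.zsmul_mem hp z

theorem zz_mul {p : PP} (hp : p ∈ J) (i : ℕ) : zz i * p ∈ J := by
  obtain ⟨q, rfl⟩ := hp
  refine ⟨X i * q, ?_⟩
  show Ph (X i * q) = zz i * Ph q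
  rw [map_mul, Ph_X]

theorem pd_Ph (i : ℕ) (q : MvPolynomial ℕ ℤ) : pderiv i (Ph q) = cc i • Ph (pderiv i q) := by
  induction q using MvPolynomial.induction_on with
  | C a =>
    rw [Ph_C, MvPolynomial.pderiv_C, map_zero, smul_zero]
    have : ((a : ℤ) : PP) = C (a : ℚ) := by simp
    rw [this, MvPolynomial.pderiv_C]
  | add p q hp hq =>
    rw [map_add, map_add, hp, hq, map_add, map_add, smul_add]
  | mul_X p j hp =>
    rw [map_mul, Ph_X, Derivation.leibniz, hp, Derivation.leibniz, map_add, smul_eq_mul,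
      smul_eq_mul, smul_eq_mul, smul_eq_mul, map_mul, map_mul, Ph_X]
    have h1 : pderiv i (zz j) = if j = i then C (cc j) else 0 := by
      unfold zz
      exact pd_CX i j (cc j)
    rw [h1, pderiv_X]
    by_cases h : j = i
    · subst h
      rw [if_pos rfl, Pi.single_eq_same, map_one, MvPolynomial.smul_eq_C_mul,
        MvPolynomial.smul_eq_C_mul]
      ring
    · rw [if_neg h, Pi.single_eq_of_ne h, map_zero, MvPolynomial.smul_eq_C_mul,
        MvPolynomial.smul_eq_C_mul]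
      ring

/-- `h_t J ⊆ J` -/
theorem h_J (t : ℤ) {p : PP} (hp : p ∈ J) : hO t p ∈ J := by
  rcases tri t with ⟨l, rfl⟩ | rfl | ⟨l, rfl⟩
  · rw [hO_neg]
    have h1 : X l * p = ((3 ^ ep l : ℤ) : ℚ) • (zz l * p) := by
      unfold zz
      rw [MvPolynomial.smul_eq_C_mul, ← mul_assoc, ← mul_assoc, ← C_mul]
      have : (((3 ^ ep l : ℤ) : ℚ) * cc l) = 1 := by
        unfold cc
        push_cast
        field_simp
      rw [this, C_1, one_mul]
    rw [h1]
    exact zmul (zz_mul hp l) _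
  · rw [hO_zero]; exact J.zero_mem
  · obtain ⟨q, rfl⟩ := hp
    show hO ((l : ℤ) + 1) (Ph q) ∈ J
    rw [hO_pos, pd_Ph, smul_smul]
    obtain ⟨z, hz⟩ : ∃ z : ℤ, ((l : ℚ) + 1) * cc l = z := by
      unfold cc ep
      split_ifs with h
      · obtain ⟨n, hn⟩ : ∃ n : ℕ, l + 1 = 3 * n := ⟨(l + 1) / 3, by omega⟩
        refine ⟨n, ?_⟩
        have : ((l : ℚ) + 1) = 3 * n := by exact_mod_cast hn
        rw [this]
        push_cast
        ring
      · exact ⟨(l : ℤ) + 1, by push_cast; ring⟩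
    rw [hz]
    exact zmul (mem_J _) z

/-- `(1/3) h_t J ⊆ J` for `t = 0, 3` modulo `9` -/
theorem h_J3 (t : ℤ) (ht : t % 9 = 0 ∨ t % 9 = 3) {p : PP} (hp : p ∈ J) :
    (1 / 3 : ℚ) • hO t p ∈ J := by
  rcases tri t with ⟨l, rfl⟩ | rfl | ⟨l, rfl⟩
  · rw [hO_neg]
    have he : ep l = 1 := by
      unfold ep
      rw [if_pos (by omega)]
    have h1 : (1 / 3 : ℚ) • (X l * p) = zz l * p := by
      unfold zz cc
      rw [he, pow_one, MvPolynomial.smul_eq_C_mul, mul_assoc]
    rw [h1]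
    exact zz_mul hp l
  · rw [hO_zero, smul_zero]; exact J.zero_mem
  · obtain ⟨q, rfl⟩ := hp
    show (1 / 3 : ℚ) • hO ((l : ℤ) + 1) (Ph q) ∈ J
    rw [hO_pos, pd_Ph, smul_smul, smul_smul]
    obtain ⟨z, hz⟩ : ∃ z : ℤ, 1 / 3 * (((l : ℚ) + 1)) * cc l = z := by
      rcases ht with ht | ht
      · have he : ep l = 1 := by
          unfold ep
          rw [if_pos (by omega)]
        obtain ⟨n, hn⟩ : ∃ n : ℕ, l + 1 = 9 * n := ⟨(l + 1) / 9, by omega⟩
        refine ⟨n, ?_⟩
        have : ((l : ℚ) + 1) = 9 * n := by exact_mod_cast hn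
        unfold cc
        rw [this, he]
        push_cast
        ring
      · have he : ep l = 0 := by
          unfold ep
          rw [if_neg (by omega)]
        obtain ⟨n, hn⟩ : ∃ n : ℕ, l + 1 = 3 * n := ⟨(l + 1) / 3, by omega⟩
        refine ⟨n, ?_⟩
        have : ((l : ℚ) + 1) = 3 * n := by exact_mod_cast hn
        unfold cc
        rw [this, he]
        push_cast
        ring
    rw [hz]
    exact zmul (mem_J _) z

section

variable {A : VertexAlgebra PP} (hA : Good A)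
include hA

/-- all modes of the generators preserve `J` -/
theorem zz_J (l : ℕ) (k : ℤ) {b : PP} (hb : b ∈ J) : A.Y (zz l) k b ∈ J := by
  have h1 : A.Y (zz l) k b = cc l • (((-1 : ℚ) ^ l * bc k l) • hO (k - l) b) := by
    unfold zz
    rw [← MvPolynomial.smul_eq_C_mul, map_smul, Pi.smul_apply, LinearMap.smul_apply, YX hA]
  rw [h1]
  unfold bc
  by_cases he : (l + 1) % 9 = 0 ∨ (l + 1) % 9 = 6
  · have hc : cc l = 1 / 3 := by
      unfold cc ep
      rw [if_pos he, pow_one]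
    rw [hc]
    by_cases ht : (k - l) % 9 = 0 ∨ (k - l) % 9 = 3
    · rw [smul_comm]
      have := zmul (h_J3 (k - l) ht hb) ((-1) ^ l * Ring.choose k l)
      push_cast at this
      exact this
    · obtain ⟨c, hc'⟩ := three_dvd_choose k l he ht
      rw [hc', smul_smul]
      have := zmul (h_J (k - l) hb) ((-1) ^ l * c)
      push_cast at this
      have e : 1 / 3 * ((-1 : ℚ) ^ l * ((3 * c : ℤ) : ℚ)) = (-1) ^ l * c := by
        push_cast; ring
      rw [e]
      exact this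
  · have hc : cc l = 1 := by
      unfold cc ep
      rw [if_neg he, pow_zero, div_one]
    rw [hc, one_smul]
    have := zmul (h_J (k - l) hb) ((-1) ^ l * Ring.choose k l)
    push_cast at this
    exact this

/-- `J` is closed under all products -/
theorem closed {a b : PP} (ha : a ∈ J) (hb : b ∈ J) (k : ℤ) : A.Y a k b ∈ J := by
  obtain ⟨q, rfl⟩ := ha
  show A.Y (Ph q) k b ∈ J
  induction q using MvPolynomial.induction_on generalizing k b with
  | C a =>
    rw [Ph_C]
    have : ((a : ℤ) : PP) = (a : ℚ) • A.one := by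
      rw [hA.one, MvPolynomial.smul_eq_C_mul, mul_one]
      simp
    rw [this, map_smul, Pi.smul_apply, LinearMap.smul_apply, A.one_left]
    split_ifs
    · exact zmul hb a
    · rw [smul_zero]; exact J.zero_mem
  | add p q hp hq =>
    rw [map_add, map_add, Pi.add_apply, LinearMap.add_apply]
    exact J.add_mem (hp hb k) (hq hb k)
  | mul_X p i hp =>
    have h1 : A.Y (zz i) (-1) (Ph p) = Ph (p * X i) := by
      unfold zz
      rw [← MvPolynomial.smul_eq_C_mul, map_smul, Pi.smul_apply, LinearMap.smul_apply, YX hA,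
        bc_neg_one, ← mul_pow, map_mul, Ph_X]
      have e : (-1 : ℤ) - i = -(i : ℤ) - 1 := by ring
      rw [e, hO_neg]
      unfold zz
      rw [MvPolynomial.smul_eq_C_mul]
      norm_num
      ring
    rw [← h1]
    obtain ⟨S0, h0⟩ := assoc1_fin A (zz i) (Ph p) b k
    rw [h0 S0 le_rfl]
    apply J.sum_mem
    intro s _
    exact J.add_mem (zz_J hA i _ (hp hb _)) (hp (zz_J hA i _ hb) _)

end

/-- the scalars of the monomials -/
noncomputable def cm (s : ℕ →₀ ℕ) : ℚ := s.prod fun i k => cc i ^ k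

theorem cm_ne (s : ℕ →₀ ℕ) : cm s ≠ 0 := by
  unfold cm Finsupp.prod
  rw [Finset.prod_ne_zero_iff]
  intro i _
  exact pow_ne_zero _ (cc_ne i)

/-- the basis of `J` -/
noncomputable def zb : Module.Basis (ℕ →₀ ℕ) ℚ PP :=
  (basisMonomials ℕ ℚ).unitsSMul (fun s => Units.mk0 (cm s) (cm_ne s))

theorem Ph_mon (s : ℕ →₀ ℕ) (a : ℤ) : Ph (monomial s a) = a • zb s := by
  unfold zb
  rw [Module.Basis.unitsSMul_apply, coe_basisMonomials]
  show Ph (monomial s a) = a • (cm s • monomial s (1 : ℚ))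
  unfold Ph
  rw [coe_eval₂Hom, eval₂_monomial]
  have h1 : (s.prod fun i k => zz i ^ k) = cm s • monomial s (1 : ℚ) := by
    unfold zz cm
    rw [MvPolynomial.smul_eq_C_mul]
    have h2 : (monomial s (1 : ℚ) : PP) = s.prod fun i k => X i ^ k := by
      rw [monomial_eq, C_1, one_mul]
    rw [h2]
    unfold Finsupp.prod
    rw [map_prod, ← Finset.prod_mul_distrib]
    refine Finset.prod_congr rfl fun i _ => ?_
    show (C (cc i) * X i : PP) ^ s i = C (cc i ^ s i) * X i ^ s i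
    rw [mul_pow, C_pow]
  rw [h1, zsmul_eq_mul]
  rfl

theorem J_eq : J = AddSubgroup.closure (Set.range zb) := by
  apply le_antisymm
  · rintro _ ⟨q, rfl⟩
    show Ph q ∈ _
    induction q using MvPolynomial.induction_on' with
    | monomial s a =>
      rw [Ph_mon]
      exact AddSubgroup.zsmul_mem _ (AddSubgroup.subset_closure (Set.mem_range_self s)) a
    | add p q hp hq =>
      rw [map_add]
      exact AddSubgroup.add_mem _ hp hq
  · rw [AddSubgroup.closure_le]
    rintro _ ⟨s, rfl⟩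
    refine ⟨monomial s 1, ?_⟩
    show Ph (monomial s 1) = _
    rw [Ph_mon, one_smul]

/-- unbounded denominators -/
theorem unbounded (m : ℕ) (hm : 0 < m) : ∃ a ∈ J, ∃ b ∈ J, ∀ z : ℤ, (m : ℚ) * B a b ≠ z := by
  have : Fact (Nat.Prime 3) := ⟨Nat.prime_three⟩
  set k := 2 * padicValNat 3 m + 1 with hk
  refine ⟨Ph (X 5 ^ k), mem_J _, Ph (X 5 ^ k), mem_J _, fun z hz => ?_⟩
  have h5 : cc 5 = 1 / 3 := by
    unfold cc ep
    rw [if_pos (by norm_num), pow_one]
  have h1 : Ph (X 5 ^ k) = ((1 / 3 : ℚ) ^ k) • monomial (Finsupp.single 5 k) (1 : ℚ) := by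
    rw [map_pow, Ph_X]
    unfold zz
    rw [mul_pow, ← C_pow, ← MvPolynomial.smul_eq_C_mul, h5, X_pow_eq_monomial]
  have h2 : bw (Finsupp.single 5 k) = (-6) ^ k * (Nat.factorial k : ℚ) := by
    unfold bw
    rw [Finsupp.prod_single_index]
    · norm_num
    · simp
  rw [h1, map_smul, map_smul, LinearMap.smul_apply, B_mon, coeff_monomial, if_pos rfl, h2,
    smul_eq_mul, smul_eq_mul, mul_one] at hz
  have h3 : (m : ℚ) * ((-2) ^ k * (Nat.factorial k : ℚ)) = 3 ^ k * z := by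
    rw [← hz]
    have e : ((-6 : ℚ) ^ k) = (-2) ^ k * 3 ^ k := by rw [← mul_pow]; norm_num
    rw [e, one_div, inv_pow]
    field_simp
  have h4 : (m : ℤ) * ((-2) ^ k * (Nat.factorial k : ℤ)) = 3 ^ k * z := by exact_mod_cast h3
  have h6 : (3 ^ k : ℕ) ∣ m * (2 ^ k * Nat.factorial k) := by
    have h7 : ((3 ^ k : ℕ) : ℤ) ∣ (m : ℤ) * ((-2) ^ k * (Nat.factorial k : ℤ)) := by
      rw [h4]
      exact ⟨z, by push_cast; ring⟩
    have h8 := Int.natAbs_dvd_natAbs.2 h7
    simpa [Int.natAbs_mul, Int.natAbs_pow] using h8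
  have hne : m * (2 ^ k * Nat.factorial k) ≠ 0 := by
    have := Nat.factorial_pos k
    positivity
  have h9 := (padicValNat_dvd_iff_le hne).1 h6
  rw [padicValNat.mul hm.ne' (by have := Nat.factorial_pos k; positivity),
    padicValNat.mul (by positivity) (Nat.factorial_pos k).ne', padicValNat.pow (p := 3) (a := 2) (n := k)] at h9
  have h10 : padicValNat 3 2 = 0 := by
    apply padicValNat.eq_zero_of_not_dvd
    norm_num
  have h11 := sub_one_mul_padicValNat_factorial (p := 3) k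
  rw [h10, mul_zero, zero_add] at h9
  have h12 : (3 - 1) * padicValNat 3 (Nat.factorial k) ≤ k := by
    rw [h11]
    exact Nat.sub_le _ _
  omega

end Pool.Agent.R336.VQ.Heis
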